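import Pool.Agent.H56.Th.KW

/-! Random samples of the co-normal powers of a graph. -/

namespace Pool.H56.Th

open Finset

variable {V : Type*} [Fintype V] [DecidableEq V]

/-- non-adjacency of a tuple in the co-normal power. -/
def good (adj : V → V → Prop) {l k : ℕ} (t : Fin k → Fin l → V) : Prop :=
  ∀ a b, ∀ c, ¬ adj (t a c) (t b c)

open Classical in
lemma card_good (adj : V → V → Prop) (l k : ℕ) :
    ((univ : Finset (Fin k → Fin l → V)).filter (good adj)).card ≤ (NT adj univ k).card ^ l := by
  have h : (Fintype.piFinset (fun _ : Fin l => NT adj univ k)).card = (NT adj univ k).card ^ l := by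
    rw [Fintype.card_piFinset_const]
  rw [← h]
  apply card_le_card_of_injOn (fun t => fun c a => t a c)
  · intro t ht
    have ht' : good adj t := (mem_filter.mp (mem_coe.mp ht)).2
    rw [mem_coe, Fintype.mem_piFinset]
    intro c
    rw [mem_NT]
    exact ⟨fun i => mem_univ _, fun a b => ht' a b c⟩
  · intro t _ t' _ hh
    funext a c
    exact congrFun (congrFun hh c) a

lemma card_pull {W : Type*} [Fintype W] {n k : ℕ} (e : Fin k → Fin n) (he : Function.Injective e)
    (P : Finset (Fin k → W)) (Q : (Fin n → W) → Prop) [DecidablePred Q]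
    (hQ : ∀ S, Q S → S ∘ e ∈ P) :
    ((univ : Finset (Fin n → W)).filter Q).card
      ≤ P.card * Fintype.card W ^ (n - k) := by
  classical
  have hcompl : Fintype.card {x : Fin n // x ∉ Set.range e} = n - k := by
    have h1 := Fintype.card_subtype_compl (fun x : Fin n => x ∈ Set.range e)
    rw [Fintype.card_fin] at h1
    have h2 : Fintype.card {x : Fin n // x ∈ Set.range e} = k := by
      have := Fintype.card_congr (Equiv.ofInjective e he)
      rw [Fintype.card_fin] at this
      exact this.symm
    rw [h2] at h1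
    exact h1
  have h : (P ×ˢ (univ : Finset ({x : Fin n // x ∉ Set.range e} → W))).card
      = P.card * Fintype.card W ^ (n - k) := by
    rw [card_product, card_univ, Fintype.card_fun, hcompl]
  rw [← h]
  apply card_le_card_of_injOn (fun S => (S ∘ e, fun x => S x.1))
  · intro S hS
    have hS' := hQ S (mem_filter.mp (mem_coe.mp hS)).2
    rw [mem_coe, mem_product]
    exact ⟨hS', mem_univ _⟩
  · intro S _ S' _ hh
    have h1 := congrArg Prod.fst hh
    have h2 := congrArg Prod.snd hh
    funext x
    by_cases hx : x ∈ Set.range e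
    · obtain ⟨a, rfl⟩ := hx
      exact congrFun h1 a
    · exact congrFun h2 ⟨x, hx⟩

open Classical in
lemma exists_sample (adj : V → V → Prop) (v0 : V) (n k l : ℕ)
    (hcount : n ^ k * (NT adj univ k).card ^ l < (Fintype.card V ^ l) ^ k) :
    ∃ S : Fin n → Fin l → V, ∀ e : Fin k → Fin n, Function.Injective e →
      ¬ good adj (S ∘ e) := by
  by_cases hnk : n < k
  · refine ⟨fun _ _ => v0, fun e he => ?_⟩
    have := Fintype.card_le_of_injective e he
    simp only [Fintype.card_fin] at this
    omega
  · have hkn : k ≤ n := not_lt.mp hnk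
    by_contra hcon
    push Not at hcon
    set W := Fin l → V with hW
    set P : Finset (Fin k → W) := univ.filter (good adj) with hP
    have hcov : (univ : Finset (Fin n → W)) ⊆
        ((univ : Finset (Fin k → Fin n)).filter Function.Injective).biUnion
          (fun e => (univ : Finset (Fin n → W)).filter (fun S => S ∘ e ∈ P)) := by
      intro S _
      obtain ⟨e, he, hg⟩ := hcon S
      rw [mem_biUnion]
      refine ⟨e, mem_filter.mpr ⟨mem_univ _, he⟩, mem_filter.mpr ⟨mem_univ _, ?_⟩⟩
      exact mem_filter.mpr ⟨mem_univ _, hg⟩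
    have h1 := card_le_card hcov
    have h2 : (((univ : Finset (Fin k → Fin n)).filter Function.Injective).biUnion
          (fun e => (univ : Finset (Fin n → W)).filter (fun S => S ∘ e ∈ P))).card
        ≤ n ^ k * (P.card * Fintype.card W ^ (n - k)) := by
      refine card_biUnion_le.trans ?_
      refine (sum_le_sum (fun e he => card_pull e (mem_filter.mp he).2 P
        (fun S => S ∘ e ∈ P) (fun S h => h))).trans ?_
      rw [sum_const, smul_eq_mul]
      apply Nat.mul_le_mul_right
      refine (card_filter_le _ _).trans ?_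
      rw [card_univ, Fintype.card_fun, Fintype.card_fin, Fintype.card_fin]
    have h3 : P.card ≤ (NT adj univ k).card ^ l := card_good adj l k
    have hWc : Fintype.card W = Fintype.card V ^ l := by
      have : Fintype.card (Fin l → V) = Fintype.card V ^ l := by
        rw [Fintype.card_fun, Fintype.card_fin]
      exact this
    have h4 : (univ : Finset (Fin n → W)).card = Fintype.card W ^ n := by
      rw [card_univ, Fintype.card_fun, Fintype.card_fin]
    rw [h4] at h1
    have hWpos : 0 < Fintype.card W := by
      rw [hWc]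
      exact pow_pos (Fintype.card_pos_iff.mpr ⟨v0⟩) l
    have h5 : Fintype.card W ^ n ≤ n ^ k * ((NT adj univ k).card ^ l * Fintype.card W ^ (n - k)) :=
      h1.trans (h2.trans (Nat.mul_le_mul_left _ (Nat.mul_le_mul_right _ h3)))
    have hcount' : n ^ k * (NT adj univ k).card ^ l < Fintype.card W ^ k := by
      rw [hWc]; exact hcount
    have hsplit : Fintype.card W ^ n = Fintype.card W ^ k * Fintype.card W ^ (n - k) := by
      rw [← pow_add, Nat.add_sub_cancel' hkn]
    have hpos' : 0 < Fintype.card W ^ (n - k) := pow_pos hWpos _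
    generalize Fintype.card W ^ (n - k) = c at *
    generalize Fintype.card W ^ k = a at *
    generalize (NT adj univ k).card ^ l = b at *
    generalize n ^ k = d at *
    have h6 : d * (b * c) < a * c := by
      rw [← mul_assoc]
      exact Nat.mul_lt_mul_of_pos_right hcount' hpos'
    rw [hsplit] at h5
    exact absurd h6 (not_lt.mpr h5)

/-- The sampled graph. -/
theorem exists_graph {J : Type*} [Fintype J] {adj : V → V → Prop}
    (hsymm : ∀ x y, adj x y → adj y x) (hirr : ∀ x, ¬ adj x x)
    (φ : J → V → ℝ) (hφ : ∀ j x, φ j x * φ j x = 1) (j0 : J) (hj0 : ∀ x, φ j0 x = 1)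
    (horth : ∀ x y, adj x y → ∑ j, φ j x * φ j y = 0) (v0 : V) (n k l : ℕ) (hn : 1 ≤ n)
    (hcount : n ^ k * (NT adj univ k).card ^ l < (Fintype.card V ^ l) ^ k) :
    ∃ G : SimpleGraph (Fin n), (∀ I : Finset (Fin n), G.IsIndepSet I → I.card < k) ∧
      ∃ B : Matrix (Fin n) (Fin n) ℝ, B.PosSemidef ∧ B.trace = 1 ∧
        (∀ i j, G.Adj i j → B i j = 0) ∧
        (n : ℝ) / (Fintype.card J : ℝ) ^ l ≤ ∑ i, ∑ j, B i j := by
  classical
  obtain ⟨S, hS⟩ := exists_sample adj v0 n k l hcount
  let G : SimpleGraph (Fin n) :=
    { Adj := fun i j => i ≠ j ∧ ∃ c, adj (S i c) (S j c)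
      symm := ⟨fun i j h => ⟨h.1.symm, h.2.imp (fun c hc => hsymm _ _ hc)⟩⟩
      loopless := ⟨fun i h => h.1 rfl⟩ }
  refine ⟨G, ?_, ?_⟩
  · intro I hI
    by_contra hcard
    have hcard' : k ≤ I.card := not_lt.mp hcard
    set e : Fin k → Fin n := fun a => I.orderEmbOfCardLe hcard' a with he
    have hinj : Function.Injective e := (I.orderEmbOfCardLe hcard').injective
    apply hS e hinj
    intro a b c hab
    by_cases hne : e a = e b
    · have : (S ∘ e) a c = (S ∘ e) b c := by simp [hne]
      rw [this] at hab
      exact hirr _ hab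
    · have h1 : ¬ G.Adj (e a) (e b) :=
        hI (I.orderEmbOfCardLe_mem hcard' a) (I.orderEmbOfCardLe_mem hcard' b) hne
      exact h1 ⟨hne, c, hab⟩
  · set D : ℝ := (Fintype.card J : ℝ) with hD
    have hDpos : 0 < D := by
      rw [hD]; exact_mod_cast Fintype.card_pos_iff.mpr ⟨j0⟩
    have hn0 : (0 : ℝ) < n := by exact_mod_cast hn
    set P : Matrix (Fin l → J) (Fin n) ℝ := fun I i => ∏ c, φ (I c) (S i c) with hP
    set c0 : ℝ := (n : ℝ)⁻¹ * (D ^ l)⁻¹ with hc0
    have hc0pos : 0 < c0 := by positivity
    have hentry : ∀ i j, (c0 • (P.conjTranspose * P)) i j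
        = c0 * ∑ I : Fin l → J, P I i * P I j := by
      intro i j
      rw [Matrix.smul_apply, Matrix.mul_apply, smul_eq_mul]
      congr 1
    have hprod : ∀ i j, ∑ I : Fin l → J, P I i * P I j
        = ∏ c, ∑ a, φ a (S i c) * φ a (S j c) := by
      intro i j
      rw [Finset.prod_univ_sum, Fintype.piFinset_univ]
      apply sum_congr rfl
      intro I _
      rw [hP, ← prod_mul_distrib]
    refine ⟨c0 • (P.conjTranspose * P), ?_, ?_, ?_, ?_⟩
    · exact (Matrix.posSemidef_conjTranspose_mul_self P).smul hc0pos.le
    · rw [Matrix.trace]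
      simp only [Matrix.diag_apply]
      have : ∀ i, (c0 • (P.conjTranspose * P)) i i = c0 * D ^ l := by
        intro i
        rw [hentry, hprod]
        congr 1
        have h1 : ∀ c, ∑ a, φ a (S i c) * φ a (S i c) = D := by
          intro c
          rw [sum_congr rfl (fun a _ => hφ a _), sum_const, card_univ, nsmul_eq_mul, mul_one]
        rw [prod_congr rfl (fun c _ => h1 c), prod_const, card_univ, Fintype.card_fin]
      rw [sum_congr rfl (fun i _ => this i), sum_const, card_univ, Fintype.card_fin, nsmul_eq_mul,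
        hc0]
      field_simp
    · intro i j hij
      rw [hentry, hprod]
      obtain ⟨_, c, hc⟩ := hij
      rw [prod_eq_zero (mem_univ c) (horth _ _ hc), mul_zero]
    · have hsum : ∑ i, ∑ j, (c0 • (P.conjTranspose * P)) i j
          = c0 * ∑ I : Fin l → J, (∑ i, P I i) ^ 2 := by
        have h1 : ∀ i, ∑ j, (c0 • (P.conjTranspose * P)) i j
            = c0 * ∑ I : Fin l → J, P I i * ∑ j, P I j := by
          intro i
          rw [sum_congr rfl (fun j _ => hentry i j), ← mul_sum]
          congr 1
          rw [sum_comm]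
          apply sum_congr rfl
          intro I _
          rw [mul_sum]
        rw [sum_congr rfl (fun i _ => h1 i), ← mul_sum]
        congr 1
        rw [sum_comm]
        apply sum_congr rfl
        intro I _
        rw [← sum_mul, sq]
      rw [hsum]
      have hone : (∑ i, P (fun _ => j0) i) ^ 2 = (n : ℝ) ^ 2 := by
        have : ∀ i, P (fun _ => j0) i = 1 := by
          intro i
          rw [hP]
          exact prod_eq_one (fun c _ => hj0 _)
        rw [sum_congr rfl (fun i _ => this i), sum_const, card_univ, Fintype.card_fin,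
          nsmul_eq_mul, mul_one]
      have hge : (n : ℝ) ^ 2 ≤ ∑ I : Fin l → J, (∑ i, P I i) ^ 2 := by
        rw [← hone]
        exact single_le_sum (f := fun I : Fin l → J => (∑ i, P I i) ^ 2)
          (fun I _ => sq_nonneg _) (mem_univ _)
      calc (n : ℝ) / D ^ l = c0 * (n : ℝ) ^ 2 := by rw [hc0]; field_simp
        _ ≤ _ := mul_le_mul_of_nonneg_left hge hc0pos.le

end Pool.H56.Th
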