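import Pool.Agent.H56.Th.Super
import Pool.Agent.H56.Th.Sample

/-! The base graph: vertices of the cube of dimension `400 L^2`, adjacent at distance `200 L^2`. -/

namespace Pool.H56.Th

open Finset

/-- adjacency in the base graph. -/
def adjL (L : ℕ) (x y : Finset (Fin (400 * L ^ 2))) : Prop := (symmDiff x y).card = 200 * L ^ 2

lemma adjL_symm {L : ℕ} (x y : Finset (Fin (400 * L ^ 2))) (h : adjL L x y) : adjL L y x := by
  unfold adjL at *
  rw [symmDiff_comm]; exact h

lemma adjL_irr {L : ℕ} (hL : 1 ≤ L) (x : Finset (Fin (400 * L ^ 2))) : ¬ adjL L x x := by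
  unfold adjL
  rw [symmDiff_self]
  have : 0 < L ^ 2 := by positivity
  simp only [bot_eq_empty, card_empty]
  omega

/-- the vectors of the orthonormal representation. -/
noncomputable def phi (L : ℕ) (j0 : Fin (400 * L ^ 2)) (j : Fin (400 * L ^ 2))
    (x : Finset (Fin (400 * L ^ 2))) : ℝ := sg x j * sg x j0

lemma phi_sq {L : ℕ} (j0 j : Fin (400 * L ^ 2)) (x) : phi L j0 j x * phi L j0 j x = 1 := by
  unfold phi
  have h1 := sg_sq x j
  have h2 := sg_sq x j0
  calc sg x j * sg x j0 * (sg x j * sg x j0) = (sg x j * sg x j) * (sg x j0 * sg x j0) := by ring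
    _ = 1 := by rw [h1, h2, one_mul]

lemma phi_self {L : ℕ} (j0 : Fin (400 * L ^ 2)) (x) : phi L j0 j0 x = 1 := sg_sq x j0

lemma phi_orth {L : ℕ} (j0 : Fin (400 * L ^ 2)) (x y) (h : adjL L x y) :
    ∑ j, phi L j0 j x * phi L j0 j y = 0 := by
  unfold phi
  have h1 : ∀ j, sg x j * sg x j0 * (sg y j * sg y j0)
      = (sg x j0 * sg y j0) * (if j ∈ symmDiff x y then -1 else 1) := by
    intro j
    have : sg x j * sg y j = if j ∈ symmDiff x y then -1 else 1 := by
      unfold sg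
      simp only [mem_symmDiff]
      by_cases h2 : j ∈ x <;> by_cases h3 : j ∈ y <;> simp [h2, h3]
    rw [← this]; ring
  rw [sum_congr rfl (fun j _ => h1 j), ← mul_sum]
  have h2 : ∑ j : Fin (400 * L ^ 2), (if j ∈ symmDiff x y then (-1 : ℝ) else 1) = 0 := by
    rw [sum_ite, sum_const, sum_const]
    have ha : (univ.filter (fun j => j ∈ symmDiff x y)).card = 200 * L ^ 2 := by
      have : univ.filter (fun j => j ∈ symmDiff x y) = symmDiff x y := by ext; simp
      rw [this]; exact h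
    have hb : (univ.filter (fun j => j ∉ symmDiff x y)).card = 200 * L ^ 2 := by
      have h3 := card_filter_add_card_filter_not (s := (univ : Finset (Fin (400 * L ^ 2))))
        (fun j => j ∈ symmDiff x y)
      rw [ha, card_univ, Fintype.card_fin] at h3
      omega
    rw [ha, hb]
    simp
  rw [h2, mul_zero]

lemma central_sq (n : ℕ) (hn : 1 ≤ n) : 16 ^ n ≤ 4 * n * ((2 * n).choose n) ^ 2 := by
  induction n, hn using Nat.le_induction with
  | base => decide
  | succ n hn ih =>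
    have h1 : (n + 1) * (2 * (n + 1)).choose (n + 1) = 2 * (2 * n + 1) * (2 * n).choose n := by
      have := Nat.succ_mul_centralBinom_succ n
      unfold Nat.centralBinom at this
      exact this
    have h2 : (n + 1) * (16 ^ (n + 1)) ≤ (n + 1) * (4 * (n + 1) * ((2 * (n + 1)).choose (n + 1)) ^ 2) := by
      have e1 : (n + 1) * (4 * (n + 1) * ((2 * (n + 1)).choose (n + 1)) ^ 2)
          = 4 * ((n + 1) * (2 * (n + 1)).choose (n + 1)) ^ 2 := by ring
      rw [e1, h1]
      have e2 : 4 * (2 * (2 * n + 1) * (2 * n).choose n) ^ 2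
          = 16 * (2 * n + 1) ^ 2 * ((2 * n).choose n) ^ 2 := by ring
      rw [e2, pow_succ]
      calc (n + 1) * (16 ^ n * 16) = 16 * (n + 1) * 16 ^ n := by ring
        _ ≤ 16 * (n + 1) * (4 * n * ((2 * n).choose n) ^ 2) := Nat.mul_le_mul_left _ ih
        _ = 16 * (4 * n * (n + 1)) * ((2 * n).choose n) ^ 2 := by ring
        _ ≤ 16 * (2 * n + 1) ^ 2 * ((2 * n).choose n) ^ 2 := by
          apply Nat.mul_le_mul_right
          apply Nat.mul_le_mul_left
          nlinarith
    exact Nat.le_of_mul_le_mul_left h2 (by omega)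

/-- the density of the shell. -/
noncomputable def eta (L : ℕ) : ℝ :=
  ((2 * (200 * L ^ 2)).choose (200 * L ^ 2) : ℝ) / 2 ^ (400 * L ^ 2 + 1)

lemma eta_le_one (L : ℕ) : eta L ≤ 1 := by
  unfold eta
  rw [div_le_one (by positivity)]
  have h1 : (2 * (200 * L ^ 2)).choose (200 * L ^ 2) ≤ 2 ^ (2 * (200 * L ^ 2)) :=
    Nat.choose_le_two_pow _ _
  have h2 : 2 ^ (2 * (200 * L ^ 2)) ≤ 2 ^ (400 * L ^ 2 + 1) :=
    Nat.pow_le_pow_right (by norm_num) (by omega)
  exact_mod_cast h1.trans h2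

lemma eta_nonneg (L : ℕ) : 0 ≤ eta L := by unfold eta; positivity

lemma eta_ge {L : ℕ} (hL : 1 ≤ L) : 1 ≤ 57 * (L : ℝ) * eta L := by
  have hLr : (1 : ℝ) ≤ L := by exact_mod_cast hL
  have hpos : 1 ≤ 200 * L ^ 2 := by nlinarith [Nat.pow_le_pow_left hL 2]
  have h1 := central_sq (200 * L ^ 2) hpos
  have h1' : (16 : ℝ) ^ (200 * L ^ 2) ≤ 4 * (200 * (L : ℝ) ^ 2)
      * ((2 * (200 * L ^ 2)).choose (200 * L ^ 2) : ℝ) ^ 2 := by exact_mod_cast h1
  set C : ℝ := ((2 * (200 * L ^ 2)).choose (200 * L ^ 2) : ℝ) with hC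
  have hC0 : 0 ≤ C := by positivity
  unfold eta
  rw [← hC]
  set P : ℝ := (2 : ℝ) ^ (400 * L ^ 2) with hP
  have hP0 : 0 < P := by positivity
  have h16 : (16 : ℝ) ^ (200 * L ^ 2) = P ^ 2 := by
    rw [hP, ← pow_mul]
    have : (16 : ℝ) = 2 ^ 4 := by norm_num
    rw [this, ← pow_mul]
    congr 1
    ring
  rw [h16] at h1'
  have h2 : P ≤ 28.5 * L * C := by
    have h3 : P ^ 2 ≤ (28.5 * L * C) ^ 2 := by
      refine h1'.trans ?_
      have : 0 ≤ (L : ℝ) ^ 2 * C ^ 2 := by positivity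
      nlinarith
    exact le_of_sq_le_sq h3 (by positivity) 
  rw [pow_succ, ← hP, mul_div_assoc', le_div_iff₀ (by positivity)]
  linarith

open Classical in
lemma sup_base {L : ℕ} (hL : 1 ≤ L) (A : Finset (Finset (Fin (400 * L ^ 2))))
    (hA : (2 : ℝ) ^ (400 * L ^ 2) * Real.exp (-(L : ℝ)) < A.card) :
    ∃ v ∈ A, eta L * A.card ≤ (A.filter (fun y => adjL L v y)).card := by
  have hs := supersat (s := (univ : Finset (Fin (400 * L ^ 2)))) (A := A)
    (fun x _ => subset_univ x) hL (by rw [card_univ, Fintype.card_fin]) (by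
      rw [card_univ, Fintype.card_fin]
      have h1 := mul_le_mul_of_nonneg_left hA.le (Real.exp_pos (L : ℝ)).le
      have h2 : Real.exp (L : ℝ) * (2 ^ (400 * L ^ 2) * Real.exp (-(L : ℝ)))
          = 2 ^ (400 * L ^ 2) := by
        rw [Real.exp_neg]
        have := (Real.exp_pos (L : ℝ)).ne'
        field_simp
      rw [h2] at h1
      exact h1)
  rw [card_univ, Fintype.card_fin] at hs
  have hs' : eta L * (A.card : ℝ) ^ 2 ≤ eh (200 * L ^ 2) A := hs
  by_contra hcon
  push Not at hcon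
  have hApos : (0 : ℝ) < A.card := lt_trans (by positivity) hA
  have hAne : A.Nonempty := by
    rw [← card_pos]; exact_mod_cast hApos
  have h1 : eh (200 * L ^ 2) A = ∑ x ∈ A, ((A.filter (fun y => adjL L x y)).card : ℝ) := by
    unfold eh
    apply sum_congr rfl
    intro x _
    rw [← sum_filter, sum_const, nsmul_eq_mul, mul_one]
    congr 2
    ext y
    rw [mem_filter, mem_filter]
    exact Iff.rfl
  have h2 : eh (200 * L ^ 2) A < ∑ x ∈ A, eta L * A.card := by
    rw [h1]
    exact sum_lt_sum_of_nonempty hAne (fun x hx => hcon x hx)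
  rw [sum_const, nsmul_eq_mul] at h2
  nlinarith

/-- bound for the number of independent tuples of the base graph. -/
theorem card_NT_base {L : ℕ} (hL : 1 ≤ L) (k : ℕ) :
    ((NT (adjL L) univ k).card : ℝ)
      ≤ ((2 : ℝ) ^ (400 * L ^ 2) * Real.exp (-(L : ℝ))) ^ k
        * (1 + k * Real.exp L) ^ (57 * L ^ 2) := by
  have hm0 : (0 : ℝ) < (2 : ℝ) ^ (400 * L ^ 2) * Real.exp (-(L : ℝ)) := by positivity
  have hcard : (Fintype.card (Finset (Fin (400 * L ^ 2))) : ℝ) = 2 ^ (400 * L ^ 2) := by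
    rw [Fintype.card_finset, Fintype.card_fin]; push_cast; rfl
  have h := card_NT_bound (adj := adjL L) hm0 (eta_le_one L)
    (fun A hA => sup_base hL A hA) (57 * L ^ 2) k univ (by
      rw [card_univ, hcard]
      apply mul_le_mul_of_nonneg_left _ (by positivity)
      have h1 : 1 - eta L ≤ Real.exp (-(eta L)) := by
        have := Real.add_one_le_exp (-(eta L)); linarith
      have h2 : 0 ≤ 1 - eta L := by linarith [eta_le_one L]
      calc (1 - eta L) ^ (57 * L ^ 2) ≤ (Real.exp (-(eta L))) ^ (57 * L ^ 2) :=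
            pow_le_pow_left₀ h2 h1 _
        _ = Real.exp (-(57 * L ^ 2 * eta L)) := by
            rw [← Real.exp_nat_mul]; congr 1; push_cast; ring
        _ ≤ Real.exp (-(L : ℝ)) := by
            apply Real.exp_le_exp.mpr
            have h3 := eta_ge hL
            have h4 : (1 : ℝ) ≤ L := by exact_mod_cast hL
            nlinarith)
  rw [hcard] at h
  have e : (k : ℝ) * 2 ^ (400 * L ^ 2) / (2 ^ (400 * L ^ 2) * Real.exp (-(L : ℝ)))
      = k * Real.exp L := by
    rw [Real.exp_neg]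
    have := (Real.exp_pos (L : ℝ)).ne'
    field_simp
  rw [e] at h
  exact h

lemma num_ineq {k L : ℕ} (hL : 1 ≤ L) (hk : 10000 * L ^ 2 ≤ k) :
    (2 : ℝ) ^ (L * k) * (1 + k * Real.exp L) ^ (57 * L ^ 2) < Real.exp (L * k) := by
  have hLr : (1 : ℝ) ≤ L := by exact_mod_cast hL
  have hkr : 10000 * (L : ℝ) ^ 2 ≤ k := by exact_mod_cast hk
  set t : ℝ := Real.sqrt k with ht
  have hk0 : (0 : ℝ) ≤ k := by positivity
  have ht2 : t ^ 2 = k := Real.sq_sqrt hk0
  have ht0 : 0 ≤ t := Real.sqrt_nonneg _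
  have htL : 100 * (L : ℝ) ≤ t := by
    apply Real.le_sqrt_of_sq_le
    nlinarith
  have ht100 : 100 ≤ t := by linarith
  -- log (1+k) ≤ 0.438 t
  have hlog : Real.log (1 + k) ≤ 0.438 * t := by
    rw [Real.log_le_iff_le_exp (by positivity)]
    have h1 : Real.exp (0.438 * t) = Real.exp (0.219 * t) ^ 2 := by
      rw [← Real.exp_nat_mul]; congr 1; push_cast; ring
    have h2 := Real.quadratic_le_exp_of_nonneg (x := 0.219 * t) (by positivity)
    have h3 : 0.0239 * t ^ 2 ≤ Real.exp (0.219 * t) := by nlinarith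
    have h4 : (0.0239 * t ^ 2) ^ 2 ≤ Real.exp (0.219 * t) ^ 2 :=
      pow_le_pow_left₀ (by positivity) h3 2
    rw [h1]
    refine le_trans ?_ h4
    rw [← ht2]
    have h5 : (10000 : ℝ) ≤ t ^ 2 := by nlinarith
    nlinarith
  have hl2 : Real.log 2 < 0.6931471808 := Real.log_two_lt_d9
  have hA : Real.log (1 + k * Real.exp L) ≤ L + Real.log (1 + k) := by
    have h1 : 1 + (k : ℝ) * Real.exp L ≤ (1 + k) * Real.exp L := by
      have := Real.one_le_exp (x := (L : ℝ)) (by positivity)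
      nlinarith
    calc Real.log (1 + k * Real.exp L) ≤ Real.log ((1 + k) * Real.exp L) :=
          Real.log_le_log (by positivity) h1
      _ = Real.log (1 + k) + L := by
          rw [Real.log_mul (by positivity) (Real.exp_pos _).ne', Real.log_exp]
      _ = _ := by ring
  rw [← Real.log_lt_iff_lt_exp (by positivity), Real.log_mul (by positivity) (by positivity),
    Real.log_pow, Real.log_pow]
  push_cast
  have h1 : 57 * (L : ℝ) ^ 2 * Real.log (1 + k * Real.exp L)
      ≤ 57 * (L : ℝ) ^ 2 * (L + 0.438 * t) := by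
    apply mul_le_mul_of_nonneg_left _ (by positivity)
    linarith
  have h2 : 57 * (L : ℝ) * (L + 0.438 * t) ≤ 0.3 * k := by
    rw [← ht2]
    nlinarith
  have h3 : 57 * (L : ℝ) ^ 2 * (L + 0.438 * t) ≤ L * (0.3 * k) := by nlinarith
  have h4 : (0 : ℝ) < L * k := by
    have : (0 : ℝ) < k := by nlinarith
    positivity
  nlinarith

/-- The graph for given `k ≥ 10000 L^2` and `n`. -/
theorem exists_theta_graph {k L : ℕ} (hL : 1 ≤ L) (hk : 10000 * L ^ 2 ≤ k) (n l : ℕ)
    (hn : 1 ≤ n) (hl : 1 ≤ l) (hnl : n ≤ 2 ^ (L * l)) :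
    ∃ G : SimpleGraph (Fin n), (∀ I : Finset (Fin n), G.IsIndepSet I → I.card < k) ∧
      ∃ B : Matrix (Fin n) (Fin n) ℝ, B.PosSemidef ∧ B.trace = 1 ∧
        (∀ i j, G.Adj i j → B i j = 0) ∧
        (n : ℝ) / (400 * (L : ℝ) ^ 2) ^ l ≤ ∑ i, ∑ j, B i j := by
  have hpos : 0 < 400 * L ^ 2 := by positivity
  let j0 : Fin (400 * L ^ 2) := ⟨0, hpos⟩
  have hcount : n ^ k * (NT (adjL L) univ k).card ^ l
      < (Fintype.card (Finset (Fin (400 * L ^ 2))) ^ l) ^ k := by
    have hb := card_NT_base hL k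
    have hnum := num_ineq hL hk
    have hcard : (Fintype.card (Finset (Fin (400 * L ^ 2))) : ℝ) = 2 ^ (400 * L ^ 2) := by
      rw [Fintype.card_finset, Fintype.card_fin]; push_cast; rfl
    have hreal : (n : ℝ) ^ k * ((NT (adjL L) univ k).card : ℝ) ^ l
        < (((Fintype.card (Finset (Fin (400 * L ^ 2))) : ℝ)) ^ l) ^ k := by
      rw [hcard]
      set M : ℝ := (2 : ℝ) ^ (400 * L ^ 2) with hM
      have hM0 : 0 < M := by positivity
      have h1 : (n : ℝ) ^ k ≤ ((2 : ℝ) ^ (L * k)) ^ l := by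
        have : (n : ℝ) ≤ 2 ^ (L * l) := by exact_mod_cast hnl
        calc (n : ℝ) ^ k ≤ (2 ^ (L * l)) ^ k := pow_le_pow_left₀ (by positivity) this k
          _ = _ := by rw [← pow_mul, ← pow_mul]; congr 1; ring
      have h2 : ((NT (adjL L) univ k).card : ℝ) ^ l
          ≤ ((M * Real.exp (-(L : ℝ))) ^ k * (1 + k * Real.exp L) ^ (57 * L ^ 2)) ^ l :=
        pow_le_pow_left₀ (by positivity) hb l
      have h3 : (2 : ℝ) ^ (L * k) * ((M * Real.exp (-(L : ℝ))) ^ k
          * (1 + k * Real.exp L) ^ (57 * L ^ 2)) < M ^ k := by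
        have e : (M * Real.exp (-(L : ℝ))) ^ k = M ^ k * Real.exp (-(L * k : ℝ)) := by
          rw [mul_pow, ← Real.exp_nat_mul]; congr 2; ring
        rw [e]
        have hexp : 0 < Real.exp (-(L * k : ℝ)) := Real.exp_pos _
        have h4 := mul_lt_mul_of_pos_right hnum hexp
        have h5 : Real.exp (L * k : ℝ) * Real.exp (-(L * k : ℝ)) = 1 := by
          rw [← Real.exp_add]; simp
        rw [h5] at h4
        have hMk : 0 < M ^ k := by positivity
        nlinarith
      calc (n : ℝ) ^ k * ((NT (adjL L) univ k).card : ℝ) ^ l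
          ≤ ((2 : ℝ) ^ (L * k)) ^ l * ((M * Real.exp (-(L : ℝ))) ^ k
            * (1 + k * Real.exp L) ^ (57 * L ^ 2)) ^ l :=
            mul_le_mul h1 h2 (by positivity) (by positivity)
        _ = ((2 : ℝ) ^ (L * k) * ((M * Real.exp (-(L : ℝ))) ^ k
            * (1 + k * Real.exp L) ^ (57 * L ^ 2))) ^ l := (mul_pow _ _ _).symm
        _ < (M ^ k) ^ l := pow_lt_pow_left₀ h3 (by positivity) (by omega)
        _ = (M ^ l) ^ k := pow_right_comm M k l
    exact_mod_cast hreal
  have h := exists_graph (J := Fin (400 * L ^ 2)) adjL_symm (adjL_irr hL) (phi L j0)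
    (fun j x => phi_sq j0 j x) j0 (fun x => phi_self j0 x) (fun x y hxy => phi_orth j0 x y hxy)
    ∅ n k l hn hcount
  obtain ⟨G, hG, B, h1, h2, h3, h4⟩ := h
  refine ⟨G, hG, B, h1, h2, h3, ?_⟩
  rw [Fintype.card_fin] at h4
  push_cast at h4
  exact h4

end Pool.H56.Th
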