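import Pool.Agent.H56.Th.Two

/-! Small set inequality on the cube of subsets of a finite set, by induction on the set. -/

namespace Pool.H56.Th

open Finset

variable {α : Type*} [DecidableEq α]

/-- Walsh transform (not normalised). -/
noncomputable def F (s : Finset α) (f : Finset α → ℝ) (T : Finset α) : ℝ :=
  ∑ x ∈ s.powerset, (-1 : ℝ) ^ (T ∩ x).card * f x

/-- number of points of the cube where `f` does not vanish. -/
noncomputable def supp (s : Finset α) (f : Finset α → ℝ) : ℝ :=
  ∑ x ∈ s.powerset, (if f x ≠ 0 then 1 else 0)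

/-- weighted sum of squares. -/
noncomputable def W (δ : ℝ) (s : Finset α) (f : Finset α → ℝ) : ℝ :=
  ∑ T ∈ s.powerset, δ ^ T.card * F s f T ^ 2

lemma F_insert_left {a : α} {s : Finset α} (ha : a ∉ s) (f : Finset α → ℝ) {T : Finset α}
    (hT : T ⊆ s) : F (insert a s) f T = F s f T + F s (fun x => f (insert a x)) T := by
  unfold F
  rw [sum_powerset_insert ha]
  congr 1
  apply sum_congr rfl
  intro x _
  have : T ∩ insert a x = T ∩ x := by
    ext i
    simp only [mem_inter, mem_insert]
    constructor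
    · rintro ⟨h1, h2 | h2⟩
      · subst h2; exact absurd (hT h1) ha
      · exact ⟨h1, h2⟩
    · rintro ⟨h1, h2⟩; exact ⟨h1, Or.inr h2⟩
  rw [this]

lemma F_insert_right {a : α} {s : Finset α} (ha : a ∉ s) (f : Finset α → ℝ) {T : Finset α}
    (hT : T ⊆ s) :
    F (insert a s) f (insert a T) = F s f T - F s (fun x => f (insert a x)) T := by
  unfold F
  rw [sum_powerset_insert ha, sub_eq_add_neg, ← sum_neg_distrib]
  congr 1
  · apply sum_congr rfl
    intro x hx
    have hx' : a ∉ x := fun h => ha (mem_powerset.mp hx h)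
    have : insert a T ∩ x = T ∩ x := by
      ext i
      simp only [mem_inter, mem_insert]
      constructor
      · rintro ⟨h1 | h1, h2⟩
        · subst h1; exact absurd h2 hx'
        · exact ⟨h1, h2⟩
      · rintro ⟨h1, h2⟩; exact ⟨Or.inr h1, h2⟩
    rw [this]
  · apply sum_congr rfl
    intro x hx
    have hx' : a ∉ T ∩ x := fun h => ha (hT (mem_inter.mp h).1)
    have : insert a T ∩ insert a x = insert a (T ∩ x) := by
      rw [← insert_inter_distrib]
    rw [this, card_insert_of_notMem hx']
    ring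

lemma supp_insert {a : α} {s : Finset α} (ha : a ∉ s) (f : Finset α → ℝ) :
    supp (insert a s) f = supp s f + supp s (fun x => f (insert a x)) := by
  unfold supp
  rw [sum_powerset_insert ha]

omit [DecidableEq α] in
lemma supp_nonneg (s : Finset α) (f : Finset α → ℝ) : 0 ≤ supp s f := by
  apply sum_nonneg
  intro x _
  split_ifs <;> norm_num

lemma W_insert {a : α} {s : Finset α} (ha : a ∉ s) (f : Finset α → ℝ) (δ : ℝ) :
    W δ (insert a s) f = (1 + δ) * (W δ s f + W δ s (fun x => f (insert a x)))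
      + 2 * (1 - δ) * ∑ T ∈ s.powerset, δ ^ T.card *
        (F s f T * F s (fun x => f (insert a x)) T) := by
  unfold W
  rw [sum_powerset_insert ha, ← sum_add_distrib, ← sum_add_distrib, mul_sum, mul_sum,
    ← sum_add_distrib]
  apply sum_congr rfl
  intro T hT
  have hT' := mem_powerset.mp hT
  have haT : a ∉ T := fun h => ha (hT' h)
  rw [F_insert_left ha f hT', F_insert_right ha f hT', card_insert_of_notMem haT]
  ring

/-- Small set inequality: `∑ δ^|T| F(T)^2 ≤ (4^(1-1/p))^|s| * supp^(2/p)`, `δ = p - 1`. -/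
theorem small_set {p : ℝ} (hp1 : 1 ≤ p) (hp2 : p ≤ 2) (s : Finset α) :
    ∀ f : Finset α → ℝ, (∀ x, |f x| ≤ 1) →
      W (p - 1) s f ≤ ((4 : ℝ) ^ (1 - 1 / p)) ^ s.card * supp s f ^ (2 / p) := by
  have hp0 : 0 < p := by linarith
  induction s using Finset.induction_on with
  | empty =>
    intro f hf
    simp only [W, F, supp, powerset_empty, sum_singleton, card_empty, pow_zero, one_mul,
      inter_self]
    by_cases h : f ∅ = 0
    · have : (2 / p) ≠ 0 := by positivity
      simp [h, Real.zero_rpow this]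
    · have h1 := hf ∅
      simp only [h, ne_eq, not_false_eq_true, ite_true, Real.one_rpow]
      have := sq_le_one_iff_abs_le_one (f ∅)
      exact this.mpr h1
  | insert a s ha ih =>
    intro f hf
    set g : Finset α → ℝ := fun x => f (insert a x) with hg
    have ih0 := ih f hf
    have ih1 := ih g (fun x => hf _)
    rw [W_insert ha, supp_insert ha, ← hg, card_insert_of_notMem ha]
    set c := ((4 : ℝ) ^ (1 - 1 / p)) ^ s.card with hc
    have hc0 : 0 ≤ c := by positivity
    set n0 := supp s f with hn0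
    set n1 := supp s g with hn1
    have hn00 : 0 ≤ n0 := supp_nonneg s f
    have hn10 : 0 ≤ n1 := supp_nonneg s g
    set A := n0 ^ (1 / p) with hA
    set B := n1 ^ (1 / p) with hB
    have hA0 : 0 ≤ A := Real.rpow_nonneg hn00 _
    have hB0 : 0 ≤ B := Real.rpow_nonneg hn10 _
    have hA2 : n0 ^ (2 / p) = A ^ 2 := by
      rw [hA, ← Real.rpow_natCast, ← Real.rpow_mul hn00]; congr 1; push_cast; ring
    have hB2 : n1 ^ (2 / p) = B ^ 2 := by
      rw [hB, ← Real.rpow_natCast, ← Real.rpow_mul hn10]; congr 1; push_cast; ring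
    have hAp : A ^ p = n0 := by
      rw [hA, ← Real.rpow_mul hn00, one_div, inv_mul_cancel₀ hp0.ne', Real.rpow_one]
    have hBp : B ^ p = n1 := by
      rw [hB, ← Real.rpow_mul hn10, one_div, inv_mul_cancel₀ hp0.ne', Real.rpow_one]
    rw [hA2] at ih0
    rw [hB2] at ih1
    set Q := ∑ T ∈ s.powerset, (p - 1) ^ T.card * (F s f T * F s g T) with hQ
    have hd0 : 0 ≤ p - 1 := by linarith
    have hd1 : 0 ≤ 1 - (p - 1) := by linarith
    have hcs : Q ^ 2 ≤ W (p - 1) s f * W (p - 1) s g := by
      rw [hQ]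
      unfold W
      apply sum_sq_le_sum_mul_sum_of_sq_le_mul
      · intro T _; positivity
      · intro T _; positivity
      · intro T _; exact le_of_eq (by ring)
    have hW0 : 0 ≤ W (p - 1) s f := by
      unfold W; apply sum_nonneg; intro T _; positivity
    have hW1 : 0 ≤ W (p - 1) s g := by
      unfold W; apply sum_nonneg; intro T _; positivity
    have hQle : Q ≤ c * A * B := by
      have h1 : Q ^ 2 ≤ (c * A * B) ^ 2 := by
        calc Q ^ 2 ≤ W (p - 1) s f * W (p - 1) s g := hcs
          _ ≤ (c * A ^ 2) * (c * B ^ 2) := mul_le_mul ih0 ih1 hW1 (by positivity)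
          _ = (c * A * B) ^ 2 := by ring
      exact (le_abs_self Q).trans (abs_le_of_sq_le_sq h1 (by positivity))
    have h2p := two_point hA0 hB0 hp1 hp2
    rw [hAp, hBp] at h2p
    calc (1 + (p - 1)) * (W (p - 1) s f + W (p - 1) s g) + 2 * (1 - (p - 1)) * Q
        ≤ (1 + (p - 1)) * (c * A ^ 2 + c * B ^ 2) + 2 * (1 - (p - 1)) * (c * A * B) := by
          apply add_le_add
          · apply mul_le_mul_of_nonneg_left (add_le_add ih0 ih1) (by linarith)
          · apply mul_le_mul_of_nonneg_left hQle (by linarith)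
      _ = c * ((A + B) ^ 2 + (p - 1) * (A - B) ^ 2) := by ring
      _ ≤ c * (4 * ((n0 + n1) / 2) ^ (2 / p)) := mul_le_mul_of_nonneg_left h2p hc0
      _ = ((4 : ℝ) ^ (1 - 1 / p)) ^ (s.card + 1) * (n0 + n1) ^ (2 / p) := by
          rw [Real.div_rpow (by linarith) (by norm_num), pow_succ, ← hc]
          have : (4 : ℝ) ^ (1 - 1 / p) = 4 / 2 ^ (2 / p) := by
            rw [Real.rpow_sub (by norm_num), Real.rpow_one]
            congr 1
            have : (4 : ℝ) = 2 ^ (2 : ℝ) := by norm_num
            rw [this, ← Real.rpow_mul (by norm_num)]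
            congr 1
            ring
          rw [this]
          ring

lemma parseval (s : Finset α) : ∀ f : Finset α → ℝ,
    ∑ T ∈ s.powerset, F s f T ^ 2 = 2 ^ s.card * ∑ x ∈ s.powerset, f x ^ 2 := by
  induction s using Finset.induction_on with
  | empty => intro f; simp [F]
  | insert a s ha ih =>
    intro f
    have h := W_insert ha f 1
    have e : ∀ (s : Finset α) (f : Finset α → ℝ), W 1 s f = ∑ T ∈ s.powerset, F s f T ^ 2 := by
      intro s f; unfold W; simp
    rw [e, e, e, ih, ih] at h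
    rw [h, sum_powerset_insert ha, card_insert_of_notMem ha]
    ring

/-- Level inequality: a function bounded by `1` whose support has density at least `exp (-L)`
has Fourier weight at most `N^2 (2eL/j)^j` at level `j ≤ 2L`. -/
theorem level_le {s : Finset α} {f : Finset α → ℝ} (hf : ∀ x, |f x| ≤ 1) {L : ℝ} (hL : 0 < L)
    (hN : (2 : ℝ) ^ s.card ≤ Real.exp L * supp s f) {j : ℕ} (hj : 1 ≤ j) (hjL : (j : ℝ) ≤ 2 * L) :
    ∑ T ∈ powersetCard j s, F s f T ^ 2 ≤ supp s f ^ 2 * (2 * Real.exp 1 * L / j) ^ j := by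
  set N := supp s f with hNd
  have hNpos : 0 < N := by
    by_contra h
    have h0 : N ≤ 0 := not_lt.mp h
    have h1 : (0 : ℝ) < 2 ^ s.card := by positivity
    have h2 : Real.exp L * N ≤ 0 := mul_nonpos_of_nonneg_of_nonpos (Real.exp_pos L).le h0
    linarith
  have hj0 : (0 : ℝ) < j := by exact_mod_cast hj
  set δ : ℝ := j / (2 * L) with hδ
  have hδ0 : 0 < δ := by positivity
  have hδ1 : δ ≤ 1 := by rw [hδ, div_le_one (by positivity)]; exact hjL
  have hs := small_set (p := 1 + δ) (by linarith) (by linarith) s f hf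
  have e1 : (1 + δ) - 1 = δ := by ring
  rw [e1, ← hNd] at hs
  have hp0 : (0 : ℝ) < 1 + δ := by linarith
  -- lower bound of W
  have hlow : δ ^ j * ∑ T ∈ powersetCard j s, F s f T ^ 2 ≤ W δ s f := by
    unfold W
    rw [mul_sum]
    calc ∑ T ∈ powersetCard j s, δ ^ j * F s f T ^ 2
        = ∑ T ∈ powersetCard j s, δ ^ T.card * F s f T ^ 2 := by
          apply sum_congr rfl
          intro T hT
          rw [(mem_powersetCard.mp hT).2]
      _ ≤ _ := by
          apply sum_le_sum_of_subset_of_nonneg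
          · intro T hT
            exact mem_powerset.mpr (mem_powersetCard.mp hT).1
          · intro T _ _; positivity
  -- upper bound
  have hup : ((4 : ℝ) ^ (1 - 1 / (1 + δ))) ^ s.card * N ^ (2 / (1 + δ))
      ≤ N ^ 2 * Real.exp (2 * δ * L) := by
    have h4 : ((4 : ℝ) ^ (1 - 1 / (1 + δ))) ^ s.card
        = ((2 : ℝ) ^ s.card) ^ (2 * (1 - 1 / (1 + δ))) := by
      have : (4 : ℝ) = 2 ^ (2 : ℝ) := by norm_num
      rw [this, ← Real.rpow_mul (by norm_num), ← Real.rpow_natCast, ← Real.rpow_mul (by norm_num),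
        ← Real.rpow_natCast, ← Real.rpow_mul (by norm_num)]
      congr 1
      ring
    have hNe : N ^ (2 / (1 + δ)) = N ^ 2 / N ^ (2 * (1 - 1 / (1 + δ))) := by
      rw [← Real.rpow_two, ← Real.rpow_sub hNpos]
      congr 1
      ring
    have he1 : 0 ≤ 2 * (1 - 1 / (1 + δ)) := by
      have : 1 / (1 + δ) ≤ 1 := by rw [div_le_one hp0]; linarith
      linarith
    have he2 : 2 * (1 - 1 / (1 + δ)) ≤ 2 * δ := by
      have : 1 - 1 / (1 + δ) = δ / (1 + δ) := by field_simp; ring
      rw [this]
      have : δ / (1 + δ) ≤ δ := by rw [div_le_iff₀ hp0]; nlinarith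
      linarith
    rw [h4, hNe]
    calc ((2 : ℝ) ^ s.card) ^ (2 * (1 - 1 / (1 + δ))) * (N ^ 2 / N ^ (2 * (1 - 1 / (1 + δ))))
        = N ^ 2 * ((2 : ℝ) ^ s.card / N) ^ (2 * (1 - 1 / (1 + δ))) := by
          rw [Real.div_rpow (by positivity) hNpos.le]; ring
      _ ≤ N ^ 2 * (Real.exp L) ^ (2 * (1 - 1 / (1 + δ))) := by
          apply mul_le_mul_of_nonneg_left _ (by positivity)
          apply Real.rpow_le_rpow (by positivity) _ he1
          rw [div_le_iff₀ hNpos]; exact hN
      _ = N ^ 2 * Real.exp (L * (2 * (1 - 1 / (1 + δ)))) := by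
          rw [← Real.exp_mul]
      _ ≤ N ^ 2 * Real.exp (2 * δ * L) := by
          apply mul_le_mul_of_nonneg_left _ (by positivity)
          apply Real.exp_le_exp.mpr
          nlinarith
  have hall := hlow.trans (hs.trans hup)
  have hδj : 0 < δ ^ j := by positivity
  have h2 : 2 * δ * L = j := by rw [hδ]; field_simp
  rw [h2] at hall
  have h3 : ∑ T ∈ powersetCard j s, F s f T ^ 2 ≤ N ^ 2 * Real.exp j / δ ^ j := by
    rw [le_div_iff₀ hδj, mul_comm]; exact hall
  refine h3.trans (le_of_eq ?_)
  have h4 : Real.exp (j : ℝ) = Real.exp 1 ^ j := by rw [← Real.exp_nat_mul, mul_one]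
  rw [h4, mul_div_assoc, ← div_pow]
  congr 2
  rw [hδ]
  field_simp

end Pool.H56.Th
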