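import Mathlib

/-! Counting independent tuples by the Kleitman-Winston recursion. -/

namespace Pool.H56.Th

open Finset

variable {V : Type*} [Fintype V] [DecidableEq V]

open Classical in
/-- tuples of length `k` from `A` which are pairwise non-adjacent. -/
noncomputable def NT (adj : V → V → Prop) (A : Finset V) (k : ℕ) : Finset (Fin k → V) :=
  univ.filter (fun t => (∀ i, t i ∈ A) ∧ ∀ i j, ¬ adj (t i) (t j))

lemma mem_NT {adj : V → V → Prop} {A : Finset V} {k : ℕ} {t : Fin k → V} :
    t ∈ NT adj A k ↔ (∀ i, t i ∈ A) ∧ ∀ i j, ¬ adj (t i) (t j) := by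
  unfold NT; simp

lemma card_NT_le {adj : V → V → Prop} (A : Finset V) (k : ℕ) :
    (NT adj A k).card ≤ A.card ^ k := by
  classical
  have h : NT adj A k ⊆ Fintype.piFinset (fun _ : Fin k => A) := by
    intro t ht
    rw [Fintype.mem_piFinset]
    exact (mem_NT.mp ht).1
  refine (card_le_card h).trans ?_
  rw [Fintype.card_piFinset_const]

open Classical in
lemma NT_step {adj : V → V → Prop} (A : Finset V) (v : V) (k : ℕ) :
    (NT adj A (k + 1)).card ≤ (NT adj (A.erase v) (k + 1)).card
      + (k + 1) * (NT adj (A.filter (fun y => ¬ adj v y)) k).card := by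
  have hsub : NT adj A (k + 1) ⊆ NT adj (A.erase v) (k + 1) ∪
      (univ : Finset (Fin (k + 1))).biUnion (fun i =>
        (NT adj (A.filter (fun y => ¬ adj v y)) k).image (fun t => i.insertNth v t)) := by
    intro t ht
    obtain ⟨h1, h2⟩ := mem_NT.mp ht
    rw [mem_union]
    by_cases hv : ∃ i, t i = v
    · right
      obtain ⟨i, hi⟩ := hv
      rw [mem_biUnion]
      refine ⟨i, mem_univ _, ?_⟩
      rw [mem_image]
      refine ⟨i.removeNth t, ?_, ?_⟩
      · rw [mem_NT]
        refine ⟨fun j => ?_, fun a b => ?_⟩
        · rw [mem_filter]
          refine ⟨h1 _, ?_⟩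
          rw [← hi]
          exact h2 _ _
        · exact h2 _ _
      · rw [← hi]
        exact Fin.insertNth_self_removeNth i t
    · left
      push Not at hv
      rw [mem_NT]
      exact ⟨fun i => mem_erase.mpr ⟨hv i, h1 i⟩, h2⟩
  refine (card_le_card hsub).trans ((card_union_le _ _).trans ?_)
  apply Nat.add_le_add_left
  refine card_biUnion_le.trans ?_
  refine (sum_le_sum (fun i _ => card_image_le)).trans ?_
  rw [sum_const, card_univ, Fintype.card_fin, smul_eq_mul]

open Classical in
/-- Kleitman-Winston bound. -/
theorem card_NT_bound {adj : V → V → Prop} {m0 η : ℝ} (hm0 : 0 < m0) (hη1 : η ≤ 1)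
    (hsup : ∀ A : Finset V, m0 < A.card → ∃ v ∈ A, η * A.card ≤ (A.filter (fun y => adj v y)).card) :
    ∀ s k : ℕ, ∀ A : Finset V, (A.card : ℝ) * (1 - η) ^ s ≤ m0 →
      ((NT adj A k).card : ℝ) ≤ m0 ^ k * (1 + k * (Fintype.card V : ℝ) / m0) ^ s := by
  intro s
  induction s with
  | zero =>
    intro k A hA
    rw [pow_zero, mul_one] at hA
    rw [pow_zero, mul_one]
    calc ((NT adj A k).card : ℝ) ≤ (A.card : ℝ) ^ k := by exact_mod_cast card_NT_le A k
      _ ≤ m0 ^ k := pow_le_pow_left₀ (by positivity) hA k
  | succ s ih =>
    intro k
    set M : ℝ := (Fintype.card V : ℝ) with hM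
    have hM0 : 0 ≤ M := by positivity
    set R : ℝ := m0 ^ k * (1 + k * M / m0) ^ s with hR
    have hR0 : 0 ≤ R := by positivity
    have key : ∀ c : ℕ, ∀ A : Finset V, A.card = c → (A.card : ℝ) * (1 - η) ^ (s + 1) ≤ m0 →
        ((NT adj A k).card : ℝ) ≤ R * (1 + k * A.card / m0) := by
      intro c
      induction c with
      | zero =>
        intro A hA _
        have h1 : ((NT adj A k).card : ℝ) ≤ (A.card : ℝ) ^ k := by exact_mod_cast card_NT_le A k
        have h2 : (A.card : ℝ) ^ k ≤ m0 ^ k := by
          apply pow_le_pow_left₀ (by positivity)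
          rw [hA]; push_cast; exact hm0.le
        have h3 : m0 ^ k ≤ R * (1 + k * A.card / m0) := by
          rw [hR, mul_assoc]
          apply le_mul_of_one_le_right (by positivity)
          have h4 : 1 ≤ (1 + (k : ℝ) * M / m0) ^ s := one_le_pow₀ (by
            have : 0 ≤ (k : ℝ) * M / m0 := by positivity
            linarith)
          have h5 : 1 ≤ 1 + (k : ℝ) * A.card / m0 := by
            have : 0 ≤ (k : ℝ) * A.card / m0 := by positivity
            linarith
          nlinarith
        linarith
      | succ c ihc =>
        intro A hA hAs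
        by_cases hsmall : (A.card : ℝ) ≤ m0
        · have h1 : ((NT adj A k).card : ℝ) ≤ (A.card : ℝ) ^ k := by
            exact_mod_cast card_NT_le A k
          have h2 : (A.card : ℝ) ^ k ≤ m0 ^ k := pow_le_pow_left₀ (by positivity) hsmall k
          have h3 : m0 ^ k ≤ R * (1 + k * A.card / m0) := by
            rw [hR, mul_assoc]
            apply le_mul_of_one_le_right (by positivity)
            have h4 : 1 ≤ (1 + (k : ℝ) * M / m0) ^ s := one_le_pow₀ (by
              have : 0 ≤ (k : ℝ) * M / m0 := by positivity
              linarith)
            have h5 : 1 ≤ 1 + (k : ℝ) * A.card / m0 := by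
              have : 0 ≤ (k : ℝ) * A.card / m0 := by positivity
              linarith
            nlinarith
          linarith
        · have hbig : m0 < A.card := not_le.mp hsmall
          obtain ⟨v, hvA, hv⟩ := hsup A hbig
          rcases Nat.eq_zero_or_pos k with hk | hk
          · subst hk
            have h1 : ((NT adj A 0).card : ℝ) ≤ (A.card : ℝ) ^ 0 := by
              exact_mod_cast card_NT_le A 0
            rw [pow_zero] at h1
            rw [hR]
            simp only [Nat.cast_zero, zero_mul, zero_div, add_zero, pow_zero, one_pow, mul_one]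
            exact h1
          · obtain ⟨k', rfl⟩ : ∃ k', k = k' + 1 := ⟨k - 1, by omega⟩
            have hstep := NT_step (adj := adj) A v k'
            have hstep' : ((NT adj A (k' + 1)).card : ℝ) ≤ (NT adj (A.erase v) (k' + 1)).card
              + ((k' : ℝ) + 1) * (NT adj (A.filter (fun y => ¬ adj v y)) k').card := by
              exact_mod_cast hstep
            -- first term
            have hce : (A.erase v).card = c := by rw [card_erase_of_mem hvA, hA]; rfl
            have hceR : ((A.erase v).card : ℝ) = A.card - 1 := by
              rw [hce, hA]; push_cast; ring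
            have h1η : 0 ≤ 1 - η := by linarith
            have hfirst := ihc (A.erase v) hce (by
              refine le_trans ?_ hAs
              apply mul_le_mul_of_nonneg_right _ (by positivity)
              rw [hceR]; linarith)
            -- second term
            have hcf : ((A.filter (fun y => ¬ adj v y)).card : ℝ) ≤ (1 - η) * A.card := by
              have h1 := card_filter_add_card_filter_not (s := A) (fun y => adj v y)
              have h2 : ((A.filter (fun y => adj v y)).card : ℝ)
                  + (A.filter (fun y => ¬ adj v y)).card = A.card := by exact_mod_cast h1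
              linarith
            have hsecond := ih k' (A.filter (fun y => ¬ adj v y)) (by
              calc ((A.filter (fun y => ¬ adj v y)).card : ℝ) * (1 - η) ^ s
                  ≤ ((1 - η) * A.card) * (1 - η) ^ s :=
                    mul_le_mul_of_nonneg_right hcf (by positivity)
                _ = (A.card : ℝ) * (1 - η) ^ (s + 1) := by ring
                _ ≤ m0 := hAs)
            have hsecond' : ((NT adj (A.filter (fun y => ¬ adj v y)) k').card : ℝ) ≤ R / m0 := by
              refine hsecond.trans ?_
              rw [hR, le_div_iff₀ hm0]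
              have h1 : (1 + (k' : ℝ) * (Fintype.card V : ℝ) / m0) ^ s
                  ≤ (1 + ((k' + 1 : ℕ) : ℝ) * M / m0) ^ s := by
                apply pow_le_pow_left₀ (by positivity)
                have : (k' : ℝ) * (Fintype.card V : ℝ) / m0
                    ≤ ((k' + 1 : ℕ) : ℝ) * M / m0 := by
                  apply div_le_div_of_nonneg_right _ hm0.le
                  apply mul_le_mul_of_nonneg_right _ hM0
                  push_cast; linarith
                linarith
              calc m0 ^ k' * (1 + (k' : ℝ) * (Fintype.card V : ℝ) / m0) ^ s * m0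
                  = m0 ^ (k' + 1) * (1 + (k' : ℝ) * (Fintype.card V : ℝ) / m0) ^ s := by ring
                _ ≤ m0 ^ (k' + 1) * (1 + ((k' + 1 : ℕ) : ℝ) * M / m0) ^ s :=
                    mul_le_mul_of_nonneg_left h1 (by positivity)
            rw [hceR] at hfirst
            calc ((NT adj A (k' + 1)).card : ℝ)
                ≤ R * (1 + ((k' + 1 : ℕ) : ℝ) * (A.card - 1) / m0) + ((k' : ℝ) + 1) * (R / m0) := by
                  have := mul_le_mul_of_nonneg_left hsecond' (by positivity : (0:ℝ) ≤ (k' : ℝ) + 1)
                  linarith
              _ = R * (1 + ((k' + 1 : ℕ) : ℝ) * A.card / m0) := by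
                  push_cast
                  field_simp
                  ring
    intro A hA
    refine (key A.card A rfl hA).trans ?_
    rw [pow_succ, ← mul_assoc]
    apply mul_le_mul_of_nonneg_left _ hR0
    have h1 : (A.card : ℝ) ≤ M := by
      rw [hM]; exact_mod_cast card_le_univ A
    have : (k : ℝ) * A.card / m0 ≤ k * M / m0 := by
      apply div_le_div_of_nonneg_right _ hm0.le
      exact mul_le_mul_of_nonneg_left h1 (by positivity)
    linarith

end Pool.H56.Th
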