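import Pool.Agent.H56.Th.Cube

/-! Eigenvalues of the middle shell of the cube. -/

namespace Pool.H56.Th

open Finset Polynomial

/-- coefficient of `X^h` in `(1-X)^a (1+X)^b`. -/
noncomputable def kr (h a b : ℕ) : ℝ := (((1 - X) ^ a * (1 + X) ^ b : ℝ[X])).coeff h

lemma kr_rec {h a b : ℕ} (hab : a + b + 2 = 2 * h) :
    ((a : ℝ) + 1) * kr h a (b + 2) + ((b : ℝ) + 1) * kr h (a + 2) b = 0 := by
  obtain ⟨k, rfl⟩ : ∃ k, h = k + 1 := ⟨h - 1, by omega⟩
  set A : ℝ[X] := (1 - X) ^ a * (1 + X) ^ b with hA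
  have e1 : ((1 - X) ^ a * (1 + X) ^ (b + 2) : ℝ[X]) = A + C 2 * (X * A) + X * (X * A) := by
    rw [hA, pow_add]
    have : (C 2 : ℝ[X]) = 2 := rfl
    rw [this]; ring
  have e2 : ((1 - X) ^ (a + 2) * (1 + X) ^ b : ℝ[X]) = A - C 2 * (X * A) + X * (X * A) := by
    rw [hA, pow_add]
    have : (C 2 : ℝ[X]) = 2 := rfl
    rw [this]; ring
  have e3 : ((1 - X) ^ (a + 1) * (1 + X) ^ (b + 1) : ℝ[X]) = A - X * (X * A) := by
    rw [hA, pow_succ, pow_succ]; ring
  have hd : derivative ((1 - X) ^ (a + 1) * (1 + X) ^ (b + 1) : ℝ[X])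
      = C ((b : ℝ) - a) * A - C ((a : ℝ) + b + 2) * (X * A) := by
    rw [derivative_mul, derivative_pow, derivative_pow]
    simp only [derivative_sub, derivative_add, derivative_one, derivative_X, hA]
    simp only [map_sub, map_add, map_natCast, map_ofNat, Nat.cast_add, Nat.cast_one,
      Nat.add_sub_cancel, map_one]
    ring
  have hc := congrArg (fun p : ℝ[X] => p.coeff k) hd
  simp only [coeff_derivative, e3, coeff_sub, coeff_X_mul, coeff_C_mul] at hc
  unfold kr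
  rw [e1, e2]
  simp only [coeff_add, coeff_sub, coeff_X_mul, coeff_C_mul]
  have hab' : (a : ℝ) + b + 2 = 2 * ((k : ℝ) + 1) := by
    have := congrArg (fun n : ℕ => (n : ℝ)) hab
    push_cast at this
    linarith
  set u := A.coeff (k + 1)
  set v := A.coeff k
  set w := (X * A).coeff k
  -- hc : (u - w) * (k+1) = (b - a) * v - (a + b + 2) * w
  have hk : (k : ℝ) + 1 ≠ 0 := by positivity
  have h1 : ((k : ℝ) + 1) * (u + w) = ((b : ℝ) - a) * v := by
    have : (a : ℝ) + b + 2 = 2 * ((k : ℝ) + 1) := hab'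
    rw [this] at hc
    linarith
  have h2 : ((k : ℝ) + 1) * (((a : ℝ) + 1) * (u + 2 * v + w) + ((b : ℝ) + 1) * (u - 2 * v + w))
      = 0 := by
    have hb : (b : ℝ) = 2 * ((k : ℝ) + 1) - 2 - a := by linarith
    have : ((k : ℝ) + 1) * (((a : ℝ) + 1) * (u + 2 * v + w) + ((b : ℝ) + 1) * (u - 2 * v + w))
      = ((a : ℝ) + b + 2) * (((k : ℝ) + 1) * (u + w)) + 2 * ((k : ℝ) + 1) * v * ((a : ℝ) - b) := by
      ring
    rw [this, h1, hab']
    ring
  rcases mul_eq_zero.mp h2 with h | h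
  · exact absurd h hk
  · exact h

lemma kr_zero (h b : ℕ) : kr h 0 b = (b.choose h : ℝ) := by
  unfold kr
  rw [pow_zero, one_mul, coeff_one_add_X_pow]

lemma kr_one {h b : ℕ} (hb : b + 1 = 2 * h) : kr h 1 b = 0 := by
  obtain ⟨k, rfl⟩ : ∃ k, h = k + 1 := ⟨h - 1, by omega⟩
  unfold kr
  have : ((1 - X) ^ 1 * (1 + X) ^ b : ℝ[X]) = (1 + X) ^ b - X * (1 + X) ^ b := by ring
  rw [this, coeff_sub, coeff_X_mul, coeff_one_add_X_pow, coeff_one_add_X_pow, sub_eq_zero]
  have : b.choose (k + 1) = b.choose k := by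
    have hb' : b = 2 * k + 1 := by omega
    rw [hb']
    exact Nat.choose_symm_half k
  exact_mod_cast this

lemma kr_odd {h : ℕ} : ∀ j : ℕ, 2 * j + 1 ≤ 2 * h → kr h (2 * j + 1) (2 * h - (2 * j + 1)) = 0 := by
  intro j
  induction j with
  | zero => intro hj; exact kr_one (by omega)
  | succ j ih =>
    intro hj
    have h1 := ih (by omega)
    have h2 := kr_rec (h := h) (a := 2 * j + 1) (b := 2 * h - (2 * (j + 1) + 1)) (by omega)
    have e : 2 * h - (2 * (j + 1) + 1) + 2 = 2 * h - (2 * j + 1) := by omega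
    rw [e, h1, mul_zero, zero_add] at h2
    have e2 : 2 * j + 1 + 2 = 2 * (j + 1) + 1 := by ring
    rw [e2] at h2
    rcases mul_eq_zero.mp h2 with h3 | h3
    · exfalso
      have : (0 : ℝ) < ((2 * h - (2 * (j + 1) + 1) : ℕ) : ℝ) + 1 := by positivity
      linarith
    · exact h3

lemma kr_even_step {h j : ℕ} (hj : 2 * j + 2 ≤ 2 * h) :
    (2 * (h : ℝ) - 2 * j - 1) * |kr h (2 * j + 2) (2 * h - (2 * j + 2))|
      = (2 * (j : ℝ) + 1) * |kr h (2 * j) (2 * h - 2 * j)| := by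
  have h2 := kr_rec (h := h) (a := 2 * j) (b := 2 * h - (2 * j + 2)) (by omega)
  have e : 2 * h - (2 * j + 2) + 2 = 2 * h - 2 * j := by omega
  rw [e] at h2
  have hb : ((2 * h - (2 * j + 2) : ℕ) : ℝ) = 2 * (h : ℝ) - 2 * j - 2 := by
    rw [Nat.cast_sub hj]; push_cast; ring
  rw [hb] at h2
  push_cast at h2
  set A := kr h (2 * j) (2 * h - 2 * j)
  set B := kr h (2 * j + 2) (2 * h - (2 * j + 2))
  have h3 : (2 * (h : ℝ) - 2 * j - 1) * B = -((2 * (j : ℝ) + 1) * A) := by linarith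
  have hpos : 0 ≤ 2 * (h : ℝ) - 2 * j - 1 := by
    have : ((2 * j + 2 : ℕ) : ℝ) ≤ ((2 * h : ℕ) : ℝ) := by exact_mod_cast hj
    push_cast at this
    linarith
  have h4 := congrArg abs h3
  rw [abs_mul, abs_neg, abs_mul, abs_of_nonneg hpos] at h4
  rw [h4, abs_of_nonneg (by positivity : (0 : ℝ) ≤ 2 * (j : ℝ) + 1)]

lemma kr_even_le {h J : ℕ} (hJ : J < h) : ∀ j : ℕ, j ≤ J →
    |kr h (2 * j) (2 * h - 2 * j)|
      ≤ ((2 * h).choose h : ℝ) * (2 * J / (2 * h - 2 * J)) ^ j := by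
  intro j
  induction j with
  | zero =>
    intro _
    rw [mul_zero, Nat.sub_zero, kr_zero, pow_zero, mul_one, abs_of_nonneg (by positivity)]
  | succ j ih =>
    intro hj
    have ih' := ih (by omega)
    have hst := kr_even_step (h := h) (j := j) (by omega)
    have e : 2 * (j + 1) = 2 * j + 2 := by ring
    rw [e, pow_succ, ← mul_assoc]
    have hJr : (J : ℝ) + 1 ≤ h := by exact_mod_cast hJ
    have hjr : (j : ℝ) + 1 ≤ J := by exact_mod_cast hj
    have hj0 : (0 : ℝ) ≤ j := by positivity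
    have hd : 0 < 2 * (h : ℝ) - 2 * j - 1 := by linarith
    have hd2 : 0 < 2 * (h : ℝ) - 2 * J := by linarith
    have h1 : |kr h (2 * j + 2) (2 * h - (2 * j + 2))|
        = (2 * (j : ℝ) + 1) / (2 * (h : ℝ) - 2 * j - 1) * |kr h (2 * j) (2 * h - 2 * j)| := by
      rw [div_mul_eq_mul_div, eq_div_iff hd.ne', mul_comm]; exact hst
    rw [h1, mul_comm]
    apply mul_le_mul ih' _ (by positivity) (by positivity)
    rw [div_le_div_iff₀ hd hd2]
    nlinarith

lemma kr_even_anti {h j : ℕ} (hj : 4 * j + 2 ≤ 2 * h) :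
    |kr h (2 * j + 2) (2 * h - (2 * j + 2))| ≤ |kr h (2 * j) (2 * h - 2 * j)| := by
  have hst := kr_even_step (h := h) (j := j) (by omega)
  have hjr : 4 * (j : ℝ) + 2 ≤ 2 * h := by exact_mod_cast hj
  have hj0 : (0 : ℝ) ≤ j := by positivity
  have hd : 0 < 2 * (h : ℝ) - 2 * j - 1 := by linarith
  have h1 : |kr h (2 * j + 2) (2 * h - (2 * j + 2))|
      = (2 * (j : ℝ) + 1) / (2 * (h : ℝ) - 2 * j - 1) * |kr h (2 * j) (2 * h - 2 * j)| := by
    rw [div_mul_eq_mul_div, eq_div_iff hd.ne', mul_comm]; exact hst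
  rw [h1]
  apply mul_le_of_le_one_left (abs_nonneg _)
  rw [div_le_one hd]
  linarith

lemma kr_even_tail {h J : ℕ} : ∀ j : ℕ, J ≤ j → 2 * j ≤ h →
    |kr h (2 * j) (2 * h - 2 * j)| ≤ |kr h (2 * J) (2 * h - 2 * J)| := by
  intro j hj
  induction j, hj using Nat.le_induction with
  | base => intro _; exact le_refl _
  | succ j hj ih =>
    intro hjh
    exact (kr_even_anti (by omega)).trans (ih (by omega))

end Pool.H56.Th
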