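import Pool.Agent.H56.Th.Shell

/-! Supersaturation for pairs at distance half of the dimension in the cube. -/

namespace Pool.H56.Th

open Finset

variable {α : Type*} [DecidableEq α]

/-- sign of a coordinate. -/
noncomputable def sg (x : Finset α) (i : α) : ℝ := if i ∈ x then -1 else 1

lemma sg_sq (x : Finset α) (i : α) : sg x i * sg x i = 1 := by
  unfold sg; split_ifs <;> norm_num

lemma pow_inter (T x : Finset α) : (-1 : ℝ) ^ (T ∩ x).card = ∏ i ∈ T, sg x i := by
  unfold sg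
  rw [prod_ite, prod_const, prod_const_one, mul_one, filter_mem_eq_inter]

lemma kappa {s T : Finset α} (hT : T ⊆ s) (h : ℕ) :
    ∑ Z ∈ powersetCard h s, (-1 : ℝ) ^ (T ∩ Z).card = kr h T.card (s.card - T.card) := by
  have h1 : (∏ i ∈ s, (1 + Polynomial.C (sg T i) * Polynomial.X) : Polynomial ℝ)
      = (1 - Polynomial.X) ^ T.card * (1 + Polynomial.X) ^ (s.card - T.card) := by
    have : ∀ i ∈ s, (1 + Polynomial.C (sg T i) * Polynomial.X : Polynomial ℝ)
        = if i ∈ T then (1 - Polynomial.X) else (1 + Polynomial.X) := by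
      intro i _
      unfold sg
      split_ifs
      · simp [sub_eq_add_neg]
      · simp
    rw [prod_congr rfl this, prod_ite, prod_const, prod_const]
    have h2 : s.filter (fun i => i ∈ T) = T := by
      rw [filter_mem_eq_inter, inter_eq_right]; exact hT
    have h3 : (s.filter (fun i => i ∉ T)).card = s.card - T.card := by
      rw [filter_notMem_eq_sdiff, card_sdiff_of_subset hT]
    rw [h2, h3]
  unfold kr
  rw [← h1, prod_one_add, Polynomial.finsetSum_coeff]
  have h4 : ∀ Z ∈ s.powerset, (∏ i ∈ Z, (Polynomial.C (sg T i) * Polynomial.X)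
      : Polynomial ℝ).coeff h = if Z.card = h then (-1 : ℝ) ^ (T ∩ Z).card else 0 := by
    intro Z _
    rw [prod_mul_distrib, prod_const, ← map_prod, Polynomial.coeff_C_mul,
      Polynomial.coeff_X_pow, inter_comm, pow_inter]
    by_cases hZ : Z.card = h
    · simp [hZ]
    · rw [if_neg (fun e => hZ e.symm), if_neg hZ, mul_zero]
  rw [sum_congr rfl h4, ← sum_filter, ← powersetCard_eq_filter]

lemma orth {s x y Z : Finset α} (hx : x ⊆ s) (hy : y ⊆ s) (hZ : Z ⊆ s) :
    ∑ T ∈ s.powerset, (-1 : ℝ) ^ (T ∩ Z).card * ((-1 : ℝ) ^ (T ∩ x).card * (-1 : ℝ) ^ (T ∩ y).card)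
      = if Z = symmDiff x y then (2 : ℝ) ^ s.card else 0 := by
  have h1 : ∀ T ∈ s.powerset, (-1 : ℝ) ^ (T ∩ Z).card *
      ((-1 : ℝ) ^ (T ∩ x).card * (-1 : ℝ) ^ (T ∩ y).card)
      = ∏ i ∈ T, (sg Z i * (sg x i * sg y i)) := by
    intro T _
    rw [pow_inter, pow_inter, pow_inter, ← prod_mul_distrib, ← prod_mul_distrib]
  rw [sum_congr rfl h1, ← prod_one_add]
  have hval : ∀ i, sg Z i * (sg x i * sg y i)
      = if (i ∈ Z ↔ i ∈ symmDiff x y) then 1 else -1 := by
    intro i
    unfold sg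
    simp only [mem_symmDiff]
    by_cases h1 : i ∈ Z <;> by_cases h2 : i ∈ x <;> by_cases h3 : i ∈ y <;> simp [h1, h2, h3]
  split_ifs with hc
  · have : ∀ i ∈ s, 1 + sg Z i * (sg x i * sg y i) = 2 := by
      intro i _
      rw [hval, if_pos (by rw [hc])]
      norm_num
    rw [prod_congr rfl this, prod_const]
  · have : ∃ i, ¬ (i ∈ Z ↔ i ∈ symmDiff x y) := by
      by_contra hcon
      push Not at hcon
      exact hc (Finset.ext hcon)
    obtain ⟨i, hi⟩ := this
    have his : i ∈ s := by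
      by_contra hns
      apply hi
      constructor
      · intro h; exact absurd (hZ h) hns
      · intro h
        rcases mem_symmDiff.mp h with h' | h'
        · exact absurd (hx h'.1) hns
        · exact absurd (hy h'.1) hns
    apply prod_eq_zero his
    rw [hval, if_neg hi]
    norm_num

/-- number of ordered pairs of `A` at distance `h`. -/
noncomputable def eh (h : ℕ) (A : Finset (Finset α)) : ℝ :=
  ∑ x ∈ A, ∑ y ∈ A, (if (symmDiff x y).card = h then 1 else 0)

/-- indicator function. -/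
noncomputable def ind (A : Finset (Finset α)) (x : Finset α) : ℝ := if x ∈ A then 1 else 0

lemma F_ind {s : Finset α} {A : Finset (Finset α)} (hA : ∀ x ∈ A, x ⊆ s) (T : Finset α) :
    F s (ind A) T = ∑ x ∈ A, (-1 : ℝ) ^ (T ∩ x).card := by
  unfold F ind
  have hAs : A ⊆ s.powerset := fun x hx => mem_powerset.mpr (hA x hx)
  simp only [mul_ite, mul_one, mul_zero]
  rw [← sum_filter, filter_mem_eq_inter, inter_eq_right.mpr hAs]

lemma fourier {s : Finset α} {A : Finset (Finset α)} (hA : ∀ x ∈ A, x ⊆ s) (h : ℕ) :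
    (2 : ℝ) ^ s.card * eh h A
      = ∑ T ∈ s.powerset, (∑ Z ∈ powersetCard h s, (-1 : ℝ) ^ (T ∩ Z).card)
          * F s (ind A) T ^ 2 := by
  have h1 : ∀ T ∈ s.powerset, (∑ Z ∈ powersetCard h s, (-1 : ℝ) ^ (T ∩ Z).card)
          * F s (ind A) T ^ 2
      = ∑ x ∈ A, ∑ y ∈ A, ∑ Z ∈ powersetCard h s, (-1 : ℝ) ^ (T ∩ Z).card *
          ((-1 : ℝ) ^ (T ∩ x).card * (-1 : ℝ) ^ (T ∩ y).card) := by
    intro T _
    rw [F_ind hA, sq, sum_mul_sum, mul_sum]
    apply sum_congr rfl; intro x _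
    rw [mul_sum]
    apply sum_congr rfl; intro y _
    rw [sum_mul]
  rw [sum_congr rfl h1, sum_comm]
  unfold eh
  rw [mul_sum]
  apply sum_congr rfl; intro x hx
  rw [sum_comm, mul_sum]
  apply sum_congr rfl; intro y hy
  rw [sum_comm]
  have h2 : ∀ Z ∈ powersetCard h s, (∑ T ∈ s.powerset, (-1 : ℝ) ^ (T ∩ Z).card *
          ((-1 : ℝ) ^ (T ∩ x).card * (-1 : ℝ) ^ (T ∩ y).card))
      = if Z = symmDiff x y then (2 : ℝ) ^ s.card else 0 := by
    intro Z hZ
    exact orth (hA x hx) (hA y hy) (mem_powersetCard.mp hZ).1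
  rw [sum_congr rfl h2, sum_ite_eq']
  have hsub : symmDiff x y ⊆ s := by
    intro i hi
    rcases mem_symmDiff.mp hi with h' | h'
    · exact hA x hx h'.1
    · exact hA y hy h'.1
  by_cases hc : (symmDiff x y).card = h
  · rw [if_pos hc, if_pos (mem_powersetCard.mpr ⟨hsub, hc⟩), mul_one]
  · rw [if_neg hc, if_neg (fun h' => hc (mem_powersetCard.mp h').2), mul_zero]

/-- Fourier weight of one level. -/
noncomputable def S (s : Finset α) (f : Finset α → ℝ) (j : ℕ) : ℝ :=
  ∑ T ∈ powersetCard j s, F s f T ^ 2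

lemma S_nonneg (s : Finset α) (f : Finset α → ℝ) (j : ℕ) : 0 ≤ S s f j :=
  sum_nonneg (fun _ _ => sq_nonneg _)

lemma sum_S (s : Finset α) (f : Finset α → ℝ) (hf : ∀ x, |f x| ≤ 1) :
    ∑ j ∈ range (s.card + 1), S s f j ≤ 2 ^ s.card * supp s f := by
  unfold S
  rw [← sum_powerset s (fun T => F s f T ^ 2), parseval]
  apply mul_le_mul_of_nonneg_left _ (by positivity)
  unfold supp
  apply sum_le_sum
  intro x _
  split_ifs with h
  · exact (sq_le_one_iff_abs_le_one (f x)).mpr (hf x)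
  · have : f x = 0 := by simpa using h
    rw [this]; norm_num

lemma sum_even_odd (a : ℕ → ℝ) : ∀ m : ℕ, ∑ j ∈ range (2 * m), a (j + 1)
    = ∑ i ∈ range m, a (2 * (i + 1)) + ∑ i ∈ range m, a (2 * i + 1) := by
  intro m
  induction m with
  | zero => simp
  | succ m ih =>
    have : 2 * (m + 1) = 2 * m + 1 + 1 := by ring
    rw [this, sum_range_succ, sum_range_succ, ih, sum_range_succ, sum_range_succ]
    have e1 : 2 * (m + 1) = 2 * m + 1 + 1 := by ring
    rw [e1]
    ring

lemma geom_le {r : ℝ} (h0 : 0 ≤ r) (h1 : r < 1) (m : ℕ) :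
    ∑ i ∈ range m, r ^ (i + 1) ≤ r / (1 - r) := by
  have h2 : ∑ i ∈ range m, r ^ (i + 1) = r * ∑ i ∈ range m, r ^ i := by
    rw [mul_sum]; apply sum_congr rfl; intro i _; rw [pow_succ]; ring
  have h3 := mul_neg_geom_sum r m
  have h4 : 0 < 1 - r := by linarith
  rw [h2, le_div_iff₀ h4]
  have h5 : 0 ≤ r ^ m := by positivity
  nlinarith

/-- The part of the spectrum between level `1` and level `h = 200 L^2` is small. -/
lemma tail_le {s : Finset α} {f : Finset α → ℝ} (hf : ∀ x, |f x| ≤ 1) {L : ℕ} (hL : 1 ≤ L)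
    (hs : s.card = 400 * L ^ 2) (hN : (2 : ℝ) ^ s.card ≤ Real.exp L * supp s f) :
    ∑ j ∈ range (200 * L ^ 2), |kr (200 * L ^ 2) (j + 1) (2 * (200 * L ^ 2) - (j + 1))|
        * S s f (j + 1)
      ≤ 1 / 8 * ((2 * (200 * L ^ 2)).choose (200 * L ^ 2) : ℝ) * supp s f ^ 2 := by
  set h := 200 * L ^ 2 with hh
  set N := supp s f with hNd
  set B : ℝ := ((2 * h).choose h : ℝ) with hB
  have hB0 : 0 ≤ B := by positivity
  have hLr : (1 : ℝ) ≤ L := by exact_mod_cast hL
  have hL2 : (L : ℝ) ≤ (L : ℝ) ^ 2 := by nlinarith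
  have hhr : (h : ℝ) = 200 * (L : ℝ) ^ 2 := by rw [hh]; push_cast; ring
  have hLh : L < h := by
    have h1 : (L : ℝ) < h := by rw [hhr]; nlinarith
    exact_mod_cast h1
  have hexp : Real.exp 1 < 2.7182818286 := Real.exp_one_lt_d9
  have hexp0 : 0 < Real.exp 1 := Real.exp_pos 1
  have hN0 : 0 ≤ N := supp_nonneg s f
  set q : ℝ := (2 * (L : ℝ) / (2 * h - 2 * L)) ^ L with hq
  have hq0 : 0 ≤ q := by
    apply pow_nonneg
    apply div_nonneg (by positivity)
    rw [hhr]; nlinarith
  -- term bound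
  have hterm : ∀ i ∈ range (100 * L ^ 2),
      |kr h (2 * (i + 1)) (2 * h - 2 * (i + 1))| * S s f (2 * (i + 1))
        ≤ B * N ^ 2 * (1 / 20) ^ (i + 1) + B * q * S s f (2 * (i + 1)) := by
    intro i hi
    have hi' : i < 100 * L ^ 2 := mem_range.mp hi
    have hS0 := S_nonneg s f (2 * (i + 1))
    by_cases hiL : i + 1 ≤ L
    · have hk := kr_even_le (h := h) (J := i + 1) (by omega) (i + 1) le_rfl
      have hlev := level_le hf (L := (L : ℝ)) (by linarith) hN (j := 2 * (i + 1)) (by omega)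
        (by push_cast; have : ((i + 1 : ℕ) : ℝ) ≤ L := by exact_mod_cast hiL
            push_cast at this; linarith)
      have hi1 : (1 : ℝ) ≤ (i : ℝ) + 1 := by linarith [(Nat.cast_nonneg i : (0 : ℝ) ≤ i)]
      have hi2 : (i : ℝ) + 1 ≤ L := by exact_mod_cast hiL
      have hden : 0 < 2 * (h : ℝ) - 2 * ((i : ℝ) + 1) := by rw [hhr]; nlinarith
      have hbase : 2 * ((i : ℝ) + 1) / (2 * h - 2 * ((i : ℝ) + 1))
          * (2 * Real.exp 1 * L / (2 * ((i : ℝ) + 1))) ^ 2 ≤ 1 / 20 := by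
        have e : 2 * ((i : ℝ) + 1) / (2 * h - 2 * ((i : ℝ) + 1))
          * (2 * Real.exp 1 * L / (2 * ((i : ℝ) + 1))) ^ 2
          = 2 * Real.exp 1 ^ 2 * L ^ 2 / (((i : ℝ) + 1) * (2 * h - 2 * ((i : ℝ) + 1))) := by
          have : (i : ℝ) + 1 ≠ 0 := by positivity
          field_simp
        rw [e, div_le_iff₀ (by positivity), hhr]
        have he2 : Real.exp 1 ^ 2 ≤ 7.4 := by nlinarith
        have hLL : 0 ≤ (L : ℝ) ^ 2 := by positivity
        have h1 : 398 * (L : ℝ) ^ 2 ≤ ((i : ℝ) + 1) * (2 * (200 * (L : ℝ) ^ 2) - 2 * ((i : ℝ) + 1)) := by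
          have h2 : ((i : ℝ) + 1) ^ 2 ≤ (L : ℝ) ^ 2 := by
            apply pow_le_pow_left₀ (by linarith) hi2
          nlinarith [mul_nonneg (sub_nonneg.mpr hi1) hLL]
        nlinarith [mul_le_mul_of_nonneg_right he2 hLL]
      have hbase0 : 0 ≤ 2 * ((i : ℝ) + 1) / (2 * h - 2 * ((i : ℝ) + 1))
          * (2 * Real.exp 1 * L / (2 * ((i : ℝ) + 1))) ^ 2 := by positivity
      have hmain : |kr h (2 * (i + 1)) (2 * h - 2 * (i + 1))| * S s f (2 * (i + 1))
          ≤ B * N ^ 2 * (1 / 20) ^ (i + 1) := by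
        calc |kr h (2 * (i + 1)) (2 * h - 2 * (i + 1))| * S s f (2 * (i + 1))
            ≤ (B * (2 * ((i + 1 : ℕ) : ℝ) / (2 * h - 2 * ((i + 1 : ℕ) : ℝ))) ^ (i + 1))
              * (N ^ 2 * (2 * Real.exp 1 * L / ((2 * (i + 1) : ℕ) : ℝ)) ^ (2 * (i + 1))) := by
              apply mul_le_mul hk hlev hS0
              apply mul_nonneg hB0
              apply pow_nonneg
              push_cast
              positivity
          _ = B * N ^ 2 * (2 * ((i : ℝ) + 1) / (2 * h - 2 * ((i : ℝ) + 1))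
          * (2 * Real.exp 1 * L / (2 * ((i : ℝ) + 1))) ^ 2) ^ (i + 1) := by
              push_cast
              rw [mul_pow, ← pow_mul]
              ring
          _ ≤ B * N ^ 2 * (1 / 20) ^ (i + 1) := by
              apply mul_le_mul_of_nonneg_left _ (by positivity)
              exact pow_le_pow_left₀ hbase0 hbase _
      have : 0 ≤ B * q * S s f (2 * (i + 1)) := by positivity
      linarith
    · have hk := kr_even_tail (h := h) (J := L) (i + 1) (by omega) (by omega)
      have hk2 := kr_even_le (h := h) (J := L) hLh L le_rfl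
      have hk3 : |kr h (2 * (i + 1)) (2 * h - 2 * (i + 1))| ≤ B * q := hk.trans hk2
      have h1 := mul_le_mul_of_nonneg_right hk3 hS0
      have h2 : 0 ≤ B * N ^ 2 * (1 / 20) ^ (i + 1) := by positivity
      linarith
  -- q is tiny
  have hqe : q * Real.exp L ≤ 1 / 50 := by
    have e : Real.exp (L : ℝ) = Real.exp 1 ^ L := by rw [← Real.exp_nat_mul, mul_one]
    rw [hq, e, ← mul_pow]
    have hb : 2 * (L : ℝ) / (2 * h - 2 * L) * Real.exp 1 ≤ 1 / 50 := by
      rw [hhr, div_mul_eq_mul_div, div_le_iff₀ (by nlinarith)]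
      nlinarith
    have hb0 : 0 ≤ 2 * (L : ℝ) / (2 * h - 2 * L) * Real.exp 1 := by
      apply mul_nonneg _ hexp0.le
      apply div_nonneg (by positivity)
      rw [hhr]; nlinarith
    calc (2 * (L : ℝ) / (2 * h - 2 * L) * Real.exp 1) ^ L ≤ (1 / 50) ^ L :=
          pow_le_pow_left₀ hb0 hb _
      _ ≤ (1 / 50) ^ 1 := pow_le_pow_of_le_one (by norm_num) (by norm_num) hL
      _ = 1 / 50 := pow_one _
  -- sum of the levels
  have hsumS : ∑ i ∈ range (100 * L ^ 2), S s f (2 * (i + 1)) ≤ 2 ^ s.card * N := by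
    refine le_trans ?_ (sum_S s f hf)
    have h1 := sum_even_odd (fun j => S s f j) (100 * L ^ 2)
    have h2 : 0 ≤ ∑ i ∈ range (100 * L ^ 2), S s f (2 * i + 1) :=
      sum_nonneg (fun _ _ => S_nonneg _ _ _)
    have h3 : ∑ j ∈ range (2 * (100 * L ^ 2)), S s f (j + 1)
        ≤ ∑ j ∈ range (s.card), S s f (j + 1) := by
      apply sum_le_sum_of_subset_of_nonneg
      · apply range_subset_range.mpr; omega
      · intro _ _ _; exact S_nonneg _ _ _
    rw [sum_range_succ' (fun j => S s f j)]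
    have h4 := S_nonneg s f 0
    linarith
  have h200 : 200 * L ^ 2 = 2 * (100 * L ^ 2) := by ring
  have hsplit : ∑ j ∈ range (200 * L ^ 2), |kr h (j + 1) (2 * h - (j + 1))| * S s f (j + 1)
      = ∑ i ∈ range (100 * L ^ 2), |kr h (2 * (i + 1)) (2 * h - 2 * (i + 1))|
          * S s f (2 * (i + 1))
        + ∑ i ∈ range (100 * L ^ 2), |kr h (2 * i + 1) (2 * h - (2 * i + 1))|
          * S s f (2 * i + 1) := by
    rw [h200]
    exact sum_even_odd (fun j => |kr h j (2 * h - j)| * S s f j) (100 * L ^ 2)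
  have hodd : ∑ i ∈ range (100 * L ^ 2), |kr h (2 * i + 1) (2 * h - (2 * i + 1))|
          * S s f (2 * i + 1) = 0 := by
    apply sum_eq_zero
    intro i hi
    have hi' : i < 100 * L ^ 2 := mem_range.mp hi
    rw [kr_odd i (by omega), abs_zero, zero_mul]
  have hgoal : ∑ j ∈ range h, |kr h (j + 1) (2 * h - (j + 1))| * S s f (j + 1)
      ≤ 1 / 8 * B * N ^ 2 := by
    have hsplit' : ∑ j ∈ range h, |kr h (j + 1) (2 * h - (j + 1))| * S s f (j + 1)
      = ∑ i ∈ range (100 * L ^ 2), |kr h (2 * (i + 1)) (2 * h - 2 * (i + 1))|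
          * S s f (2 * (i + 1))
        + ∑ i ∈ range (100 * L ^ 2), |kr h (2 * i + 1) (2 * h - (2 * i + 1))|
          * S s f (2 * i + 1) := hsplit
    rw [hsplit', hodd, add_zero]
    refine (sum_le_sum hterm).trans ?_
    rw [sum_add_distrib, ← mul_sum, ← mul_sum]
    have hg := geom_le (r := 1 / 20) (by norm_num) (by norm_num) (100 * L ^ 2)
    have h1 : B * N ^ 2 * ∑ i ∈ range (100 * L ^ 2), (1 / 20 : ℝ) ^ (i + 1)
        ≤ B * N ^ 2 * (1 / 19) := by
      apply mul_le_mul_of_nonneg_left _ (by positivity)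
      refine hg.trans (by norm_num)
    have h2 : B * q * ∑ i ∈ range (100 * L ^ 2), S s f (2 * (i + 1)) ≤ B * N ^ 2 * (1 / 50) := by
      calc B * q * ∑ i ∈ range (100 * L ^ 2), S s f (2 * (i + 1))
          ≤ B * q * (2 ^ s.card * N) := mul_le_mul_of_nonneg_left hsumS (by positivity)
        _ ≤ B * q * (Real.exp L * N * N) := by
            apply mul_le_mul_of_nonneg_left _ (by positivity)
            exact mul_le_mul_of_nonneg_right hN hN0
        _ = B * N ^ 2 * (q * Real.exp L) := by ring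
        _ ≤ B * N ^ 2 * (1 / 50) := mul_le_mul_of_nonneg_left hqe (by positivity)
    have h3 : 0 ≤ B * N ^ 2 := by positivity
    linarith
  exact hgoal

lemma supp_ind {s : Finset α} {A : Finset (Finset α)} (hA : ∀ x ∈ A, x ⊆ s) :
    supp s (ind A) = A.card := by
  unfold supp ind
  have hAs : A ⊆ s.powerset := fun x hx => mem_powerset.mpr (hA x hx)
  have : ∀ x ∈ s.powerset, (if (if x ∈ A then (1 : ℝ) else 0) ≠ 0 then (1 : ℝ) else 0)
      = if x ∈ A then 1 else 0 := by
    intro x _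
    by_cases h : x ∈ A <;> simp [h]
  rw [sum_congr rfl this, ← sum_filter, filter_mem_eq_inter, inter_eq_right.mpr hAs]
  simp

lemma abs_ind (A : Finset (Finset α)) (x : Finset α) : |ind A x| ≤ 1 := by
  unfold ind; split_ifs <;> norm_num

/-- twisted indicator. -/
noncomputable def tw (A : Finset (Finset α)) (x : Finset α) : ℝ := (-1) ^ x.card * ind A x

lemma abs_tw (A : Finset (Finset α)) (x : Finset α) : |tw A x| ≤ 1 := by
  unfold tw
  rw [abs_mul, abs_pow, abs_neg, abs_one, one_pow, one_mul]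
  exact abs_ind A x

lemma supp_tw {s : Finset α} {A : Finset (Finset α)} (hA : ∀ x ∈ A, x ⊆ s) :
    supp s (tw A) = A.card := by
  rw [← supp_ind hA]
  unfold supp
  apply sum_congr rfl
  intro x _
  have : tw A x ≠ 0 ↔ ind A x ≠ 0 := by
    unfold tw
    have : ((-1 : ℝ) ^ x.card) ≠ 0 := by positivity
    simp [this]
  by_cases h : ind A x ≠ 0
  · rw [if_pos h, if_pos (this.mpr h)]
  · rw [if_neg h, if_neg (fun h' => h (this.mp h'))]

lemma card_sdiff_inter {s T x : Finset α} (hx : x ⊆ s) :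
    ((s \ T) ∩ x).card + (T ∩ x).card = x.card := by
  have h1 : (s \ T) ∩ x = x \ T := by
    ext i
    simp only [mem_inter, mem_sdiff]
    constructor
    · rintro ⟨⟨_, h2⟩, h3⟩; exact ⟨h3, h2⟩
    · rintro ⟨h1, h2⟩; exact ⟨⟨hx h1, h2⟩, h1⟩
  rw [h1, inter_comm]
  exact card_sdiff_add_card_inter x T

lemma pow_sdiff_inter {s T x : Finset α} (hx : x ⊆ s) :
    (-1 : ℝ) ^ ((s \ T) ∩ x).card = (-1) ^ (T ∩ x).card * (-1) ^ x.card := by
  have h := card_sdiff_inter (T := T) hx
  rw [← h, pow_add, ← mul_assoc, mul_comm ((-1 : ℝ) ^ (T ∩ x).card) _, mul_assoc, ← pow_add,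
    ← two_mul, pow_mul]
  norm_num

lemma F_compl {s : Finset α} (A : Finset (Finset α)) (T : Finset α) :
    F s (ind A) (s \ T) = F s (tw A) T := by
  unfold F
  apply sum_congr rfl
  intro x hx
  rw [pow_sdiff_inter (mem_powerset.mp hx)]
  unfold tw
  ring

/-- **Supersaturation**: a set of vertices of the cube of dimension `400 L^2` of density at least
`exp (-L)` contains at least half of the expected number of pairs at distance `200 L^2`. -/
theorem supersat {s : Finset α} {A : Finset (Finset α)} (hA : ∀ x ∈ A, x ⊆ s) {L : ℕ}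
    (hL : 1 ≤ L) (hs : s.card = 400 * L ^ 2) (hN : (2 : ℝ) ^ s.card ≤ Real.exp L * A.card) :
    ((2 * (200 * L ^ 2)).choose (200 * L ^ 2) : ℝ) / 2 ^ (s.card + 1) * (A.card : ℝ) ^ 2
      ≤ eh (200 * L ^ 2) A := by
  have ht1 := tail_le (f := ind A) (abs_ind A) hL hs (by rw [supp_ind hA]; exact hN)
  have ht2 := tail_le (f := tw A) (abs_tw A) hL hs (by rw [supp_tw hA]; exact hN)
  rw [supp_ind hA] at ht1
  rw [supp_tw hA] at ht2
  set h := 200 * L ^ 2 with hh
  set B : ℝ := ((2 * h).choose h : ℝ) with hB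
  set N : ℝ := (A.card : ℝ) with hNd
  have hs' : s.card = 2 * h := by omega
  have hpos : 1 ≤ h := by rw [hh]; nlinarith [Nat.pow_le_pow_left hL 2]
  have heven : (-1 : ℝ) ^ h = 1 := by
    rw [hh]
    have : 200 * L ^ 2 = 2 * (100 * L ^ 2) := by ring
    rw [this, pow_mul]; norm_num
  have hf := fourier hA h
  -- group by size
  have hgrp : ∑ T ∈ s.powerset, (∑ Z ∈ powersetCard h s, (-1 : ℝ) ^ (T ∩ Z).card)
          * F s (ind A) T ^ 2
      = ∑ j ∈ range (2 * h + 1), ∑ T ∈ powersetCard j s,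
          (∑ Z ∈ powersetCard h s, (-1 : ℝ) ^ (T ∩ Z).card) * F s (ind A) T ^ 2 := by
    rw [sum_powerset, hs']
  have hlow : ∀ j, j ≤ 2 * h → ∑ T ∈ powersetCard j s,
          (∑ Z ∈ powersetCard h s, (-1 : ℝ) ^ (T ∩ Z).card) * F s (ind A) T ^ 2
      = kr h j (2 * h - j) * S s (ind A) j := by
    intro j _
    unfold S
    rw [mul_sum]
    apply sum_congr rfl
    intro T hT
    have hT' := mem_powersetCard.mp hT
    rw [kappa hT'.1, hT'.2, hs']
  have hhigh : ∀ j, j ≤ 2 * h → ∑ T ∈ powersetCard (2 * h - j) s,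
          (∑ Z ∈ powersetCard h s, (-1 : ℝ) ^ (T ∩ Z).card) * F s (ind A) T ^ 2
      = kr h j (2 * h - j) * S s (tw A) j := by
    intro j hj
    unfold S
    rw [mul_sum]
    apply sum_nbij' (fun T => s \ T) (fun T => s \ T)
    · intro T hT
      have hT' := mem_powersetCard.mp hT
      rw [mem_powersetCard]
      refine ⟨sdiff_subset, ?_⟩
      rw [card_sdiff_of_subset hT'.1, hT'.2, hs']; omega
    · intro T hT
      have hT' := mem_powersetCard.mp hT
      rw [mem_powersetCard]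
      refine ⟨sdiff_subset, ?_⟩
      rw [card_sdiff_of_subset hT'.1, hT'.2, hs']
    · intro T hT
      have hT' := mem_powersetCard.mp hT
      exact Finset.sdiff_sdiff_eq_self hT'.1
    · intro T hT
      have hT' := mem_powersetCard.mp hT
      exact Finset.sdiff_sdiff_eq_self hT'.1
    · intro T hT
      have hT' := mem_powersetCard.mp hT
      have hc : (s \ T).card = j := by
        rw [card_sdiff_of_subset hT'.1, hT'.2, hs']; omega
      have h1 : ∑ Z ∈ powersetCard h s, (-1 : ℝ) ^ (T ∩ Z).card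
          = ∑ Z ∈ powersetCard h s, (-1 : ℝ) ^ ((s \ T) ∩ Z).card := by
        apply sum_congr rfl
        intro Z hZ
        have hZ' := mem_powersetCard.mp hZ
        rw [pow_sdiff_inter hZ'.1, hZ'.2, heven, mul_one]
      rw [h1, kappa sdiff_subset, hc, hs', ← F_compl A (s \ T), Finset.sdiff_sdiff_eq_self hT'.1]
  have hsplit : ∑ j ∈ range (2 * h + 1), ∑ T ∈ powersetCard j s,
          (∑ Z ∈ powersetCard h s, (-1 : ℝ) ^ (T ∩ Z).card) * F s (ind A) T ^ 2
      = ∑ j ∈ range (h + 1), kr h j (2 * h - j) * S s (ind A) j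
        + ∑ j ∈ range h, kr h j (2 * h - j) * S s (tw A) j := by
    have e : 2 * h + 1 = (h + 1) + h := by ring
    rw [e, sum_range_add]
    congr 1
    · apply sum_congr rfl
      intro j hj
      have := mem_range.mp hj
      exact hlow j (by omega)
    · rw [← sum_range_reflect]
      apply sum_congr rfl
      intro j hj
      have hj' := mem_range.mp hj
      have e2 : h + 1 + (h - 1 - j) = 2 * h - j := by omega
      rw [e2]
      exact hhigh j (by omega)
  have h0 : kr h 0 (2 * h - 0) * S s (ind A) 0 = B * N ^ 2 := by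
    rw [Nat.sub_zero, kr_zero, ← hB]
    unfold S
    rw [powersetCard_zero, sum_singleton, F_ind hA]
    simp [hNd]
  have h0' : 0 ≤ kr h 0 (2 * h - 0) * S s (tw A) 0 := by
    rw [Nat.sub_zero, kr_zero]
    exact mul_nonneg (by positivity) (S_nonneg _ _ _)
  have hsum1 : B * N ^ 2 - 1 / 8 * B * N ^ 2
      ≤ ∑ j ∈ range (h + 1), kr h j (2 * h - j) * S s (ind A) j := by
    rw [sum_range_succ', h0]
    have : -(∑ j ∈ range h, |kr h (j + 1) (2 * h - (j + 1))| * S s (ind A) (j + 1))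
        ≤ ∑ j ∈ range h, kr h (j + 1) (2 * h - (j + 1)) * S s (ind A) (j + 1) := by
      rw [← sum_neg_distrib]
      apply sum_le_sum
      intro j _
      have h1 := S_nonneg s (ind A) (j + 1)
      have h2 := neg_abs_le (kr h (j + 1) (2 * h - (j + 1)))
      nlinarith
    linarith
  have hsum2 : - (1 / 8 * B * N ^ 2)
      ≤ ∑ j ∈ range h, kr h j (2 * h - j) * S s (tw A) j := by
    obtain ⟨m, hm⟩ : ∃ m, h = m + 1 := ⟨h - 1, by omega⟩
    have hr : ∑ j ∈ range h, kr h j (2 * h - j) * S s (tw A) j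
        = ∑ j ∈ range m, kr h (j + 1) (2 * h - (j + 1)) * S s (tw A) (j + 1)
          + kr h 0 (2 * h - 0) * S s (tw A) 0 := by
      conv_lhs => rw [hm]
      rw [sum_range_succ', ← hm]
    rw [hr]
    have h3 : -(∑ j ∈ range h, |kr h (j + 1) (2 * h - (j + 1))| * S s (tw A) (j + 1))
        ≤ ∑ j ∈ range m, kr h (j + 1) (2 * h - (j + 1)) * S s (tw A) (j + 1) := by
      have h4 : ∑ j ∈ range m, |kr h (j + 1) (2 * h - (j + 1))| * S s (tw A) (j + 1)
          ≤ ∑ j ∈ range h, |kr h (j + 1) (2 * h - (j + 1))| * S s (tw A) (j + 1) := by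
        apply sum_le_sum_of_subset_of_nonneg
        · apply range_subset_range.mpr; omega
        · intro _ _ _; exact mul_nonneg (abs_nonneg _) (S_nonneg _ _ _)
      have h5 : -(∑ j ∈ range m, |kr h (j + 1) (2 * h - (j + 1))| * S s (tw A) (j + 1))
        ≤ ∑ j ∈ range m, kr h (j + 1) (2 * h - (j + 1)) * S s (tw A) (j + 1) := by
        rw [← sum_neg_distrib]
        apply sum_le_sum
        intro j _
        have h1 := S_nonneg s (tw A) (j + 1)
        have h2 := neg_abs_le (kr h (j + 1) (2 * h - (j + 1)))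
        nlinarith
      linarith
    linarith
  rw [hgrp, hsplit] at hf
  have hBN : 0 ≤ B * N ^ 2 := by positivity
  have hfin : B * N ^ 2 / 2 ≤ 2 ^ s.card * eh h A := by rw [hf]; linarith
  have h2pos : (0 : ℝ) < 2 ^ s.card := by positivity
  rw [pow_succ, div_mul_eq_mul_div, div_le_iff₀ (by positivity)]
  linarith

end Pool.H56.Th
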