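import Mathlib

/-! Two point inequality of Bonami for exponents `1 ≤ p ≤ 2`. -/

namespace Pool.H56.Th

open Real

lemma aux0 {q t : ℝ} (hq0 : 0 ≤ q) (hq1 : q ≤ 1) (ht : 0 < t) :
    1 - (1 - q) * (t - 1) ≤ t ^ (q - 1) := by
  have h1 : t ^ (1 - q) ≤ 1 + (1 - q) * (t - 1) := by
    have := rpow_one_add_le_one_add_mul_self (s := t - 1) (by linarith) (p := 1 - q)
      (by linarith) (by linarith)
    have h2 : (1 : ℝ) + (t - 1) = t := by ring
    rwa [h2] at this
  have h2 : 0 < t ^ (1 - q) := Real.rpow_pos_of_pos ht _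
  have h3 : t ^ (q - 1) = (t ^ (1 - q))⁻¹ := by
    rw [← Real.rpow_neg ht.le]; congr 1; ring
  rw [h3]
  set w := t ^ (1 - q) with hw
  have h4 : 2 - w ≤ w⁻¹ := by
    rw [← one_div, le_div_iff₀ h2]
    nlinarith [sq_nonneg (w - 1)]
  linarith

lemma aux1 {q y : ℝ} (hq0 : 0 ≤ q) (hq1 : q ≤ 1) (hy0 : 0 ≤ y) (hy1 : y ≤ 1) :
    2 * q * y ≤ (1 + y) ^ q - (1 - y) ^ q := by
  have key : MonotoneOn (fun z : ℝ => (1 + z) ^ q - (1 - z) ^ q - 2 * q * z) (Set.Icc 0 1) := by
    apply monotoneOn_of_deriv_nonneg (convex_Icc 0 1)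
    · apply ContinuousOn.sub
      · apply ContinuousOn.sub
        · exact (ContinuousOn.rpow_const (by fun_prop) (fun x _ => Or.inr hq0))
        · exact (ContinuousOn.rpow_const (by fun_prop) (fun x _ => Or.inr hq0))
      · fun_prop
    · rw [interior_Icc]
      intro z hz
      apply DifferentiableAt.differentiableWithinAt
      apply DifferentiableAt.sub
      · apply DifferentiableAt.sub
        · exact DifferentiableAt.rpow_const (by fun_prop) (Or.inl (by linarith [hz.1]))
        · exact DifferentiableAt.rpow_const (by fun_prop) (Or.inl (by linarith [hz.2]))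
      · fun_prop
    · rw [interior_Icc]
      intro z hz
      have hz0 : 0 < 1 + z := by linarith [hz.1]
      have hz1 : 0 < 1 - z := by linarith [hz.2]
      have hd1 : HasDerivAt (fun z : ℝ => (1 + z) ^ q) (1 * q * (1 + z) ^ (q - 1)) z := by
        apply HasDerivAt.rpow_const _ (Or.inl hz0.ne')
        simpa using (hasDerivAt_id z).const_add 1
      have hd2 : HasDerivAt (fun z : ℝ => (1 - z) ^ q) ((-1) * q * (1 - z) ^ (q - 1)) z := by
        apply HasDerivAt.rpow_const _ (Or.inl hz1.ne')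
        simpa using (hasDerivAt_id z).const_sub 1
      have hd3 : HasDerivAt (fun z : ℝ => 2 * q * z) (2 * q) z := by
        simpa using (hasDerivAt_id z).const_mul (2 * q)
      have hd := (hd1.sub hd2).sub hd3
      have e : deriv (fun z : ℝ => (1 + z) ^ q - (1 - z) ^ q - 2 * q * z) z
          = 1 * q * (1 + z) ^ (q - 1) - (-1) * q * (1 - z) ^ (q - 1) - 2 * q := hd.deriv
      rw [e]
      have a1 := aux0 hq0 hq1 hz0
      have a2 := aux0 hq0 hq1 hz1
      nlinarith
  have h := key (Set.left_mem_Icc.mpr zero_le_one) (Set.mem_Icc.mpr ⟨hy0, hy1⟩) hy0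
  simp only [add_zero, Real.one_rpow, sub_zero, sub_self, mul_zero] at h
  linarith

lemma aux2 {p y : ℝ} (hp1 : 1 ≤ p) (hp2 : p ≤ 2) (hy0 : 0 ≤ y) (hy1 : y ≤ 1) :
    2 + p * (p - 1) * y ^ 2 ≤ (1 + y) ^ p + (1 - y) ^ p := by
  have hp0 : 0 ≤ p := by linarith
  have key : MonotoneOn (fun z : ℝ => (1 + z) ^ p + (1 - z) ^ p - p * (p - 1) * z ^ 2)
      (Set.Icc 0 1) := by
    apply monotoneOn_of_deriv_nonneg (convex_Icc 0 1)
    · apply ContinuousOn.sub
      · apply ContinuousOn.add
        · exact (ContinuousOn.rpow_const (by fun_prop) (fun x _ => Or.inr hp0))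
        · exact (ContinuousOn.rpow_const (by fun_prop) (fun x _ => Or.inr hp0))
      · fun_prop
    · rw [interior_Icc]
      intro z hz
      apply DifferentiableAt.differentiableWithinAt
      apply DifferentiableAt.sub
      · apply DifferentiableAt.add
        · exact DifferentiableAt.rpow_const (by fun_prop) (Or.inl (by linarith [hz.1]))
        · exact DifferentiableAt.rpow_const (by fun_prop) (Or.inl (by linarith [hz.2]))
      · fun_prop
    · rw [interior_Icc]
      intro z hz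
      have hz0 : 0 < 1 + z := by linarith [hz.1]
      have hz1 : 0 < 1 - z := by linarith [hz.2]
      have hd1 : HasDerivAt (fun z : ℝ => (1 + z) ^ p) (1 * p * (1 + z) ^ (p - 1)) z := by
        apply HasDerivAt.rpow_const _ (Or.inl hz0.ne')
        simpa using (hasDerivAt_id z).const_add 1
      have hd2 : HasDerivAt (fun z : ℝ => (1 - z) ^ p) ((-1) * p * (1 - z) ^ (p - 1)) z := by
        apply HasDerivAt.rpow_const _ (Or.inl hz1.ne')
        simpa using (hasDerivAt_id z).const_sub 1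
      have hd3 : HasDerivAt (fun z : ℝ => p * (p - 1) * z ^ 2)
          (p * (p - 1) * (2 * z)) z := by
        simpa using (hasDerivAt_pow 2 z).const_mul (p * (p - 1))
      have hd := (hd1.add hd2).sub hd3
      have e : deriv (fun z : ℝ => (1 + z) ^ p + (1 - z) ^ p - p * (p - 1) * z ^ 2) z
          = 1 * p * (1 + z) ^ (p - 1) + (-1) * p * (1 - z) ^ (p - 1)
            - p * (p - 1) * (2 * z) := hd.deriv
      rw [e]
      have a1 := aux1 (q := p - 1) (y := z) (by linarith) (by linarith) hz.1.le hz.2.le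
      nlinarith
  have h := key (Set.left_mem_Icc.mpr zero_le_one) (Set.mem_Icc.mpr ⟨hy0, hy1⟩) hy0
  simp only [add_zero, Real.one_rpow, sub_zero] at h
  norm_num at h
  linarith

lemma two_point_aux {a b p : ℝ} (hb : 0 ≤ b) (hab : b ≤ a) (hp1 : 1 ≤ p) (hp2 : p ≤ 2) :
    (a + b) ^ 2 + (p - 1) * (a - b) ^ 2 ≤ 4 * ((a ^ p + b ^ p) / 2) ^ (2 / p) := by
  have ha : 0 ≤ a := hb.trans hab
  have hp0 : 0 < p := by linarith
  rcases eq_or_lt_of_le (add_nonneg ha hb) with h0 | hpos
  · have ha0 : a = 0 := by linarith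
    have hb0 : b = 0 := by linarith
    subst ha0 hb0
    simp only [add_zero, sub_zero]
    have : 0 ≤ ((0 : ℝ) ^ p + 0 ^ p) / 2 := by
      rw [Real.zero_rpow hp0.ne']; norm_num
    have := Real.rpow_nonneg this (2 / p)
    nlinarith
  · set m := (a + b) / 2 with hm
    set y := (a - b) / (a + b) with hy
    have hm0 : 0 < m := by positivity
    have hy0 : 0 ≤ y := div_nonneg (by linarith) hpos.le
    have hy1 : y ≤ 1 := by rw [hy, div_le_one hpos]; linarith
    have hane : a + b ≠ 0 := hpos.ne'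
    have hae : a = m * (1 + y) := by rw [hm, hy]; field_simp; ring
    have hbe : b = m * (1 - y) := by rw [hm, hy]; field_simp; ring
    have h1 := aux2 hp1 hp2 hy0 hy1
    have h2 : a ^ p + b ^ p = m ^ p * ((1 + y) ^ p + (1 - y) ^ p) := by
      rw [hae, hbe, Real.mul_rpow hm0.le (by linarith), Real.mul_rpow hm0.le (by linarith)]
      ring
    have h3 : m ^ p * (1 + p * (p - 1) / 2 * y ^ 2) ≤ (a ^ p + b ^ p) / 2 := by
      rw [h2]
      have := Real.rpow_nonneg hm0.le p
      nlinarith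
    have h4 : 0 ≤ p * (p - 1) / 2 * y ^ 2 := by
      have : 0 ≤ p - 1 := by linarith
      positivity
    have h5 : (m ^ p * (1 + p * (p - 1) / 2 * y ^ 2)) ^ (2 / p)
        ≤ ((a ^ p + b ^ p) / 2) ^ (2 / p) := by
      apply Real.rpow_le_rpow _ h3 (by positivity)
      have := Real.rpow_nonneg hm0.le p
      positivity
    have h6 : (m ^ p * (1 + p * (p - 1) / 2 * y ^ 2)) ^ (2 / p)
        = m ^ 2 * (1 + p * (p - 1) / 2 * y ^ 2) ^ (2 / p) := by
      rw [Real.mul_rpow (Real.rpow_nonneg hm0.le p) (by linarith), ← Real.rpow_mul hm0.le]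
      have : p * (2 / p) = 2 := by field_simp
      rw [this, Real.rpow_two]
    have h7 : 1 + (p - 1) * y ^ 2 ≤ (1 + p * (p - 1) / 2 * y ^ 2) ^ (2 / p) := by
      have := one_add_mul_self_le_rpow_one_add (s := p * (p - 1) / 2 * y ^ 2) (by linarith)
        (p := 2 / p) (by rw [le_div_iff₀ hp0]; linarith)
      have e : 2 / p * (p * (p - 1) / 2 * y ^ 2) = (p - 1) * y ^ 2 := by field_simp
      rw [e] at this
      exact this
    have h8 : (a + b) ^ 2 + (p - 1) * (a - b) ^ 2 = 4 * (m ^ 2 * (1 + (p - 1) * y ^ 2)) := by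
      rw [hae, hbe]; ring
    rw [h8]
    have h9 : m ^ 2 * (1 + (p - 1) * y ^ 2)
        ≤ m ^ 2 * (1 + p * (p - 1) / 2 * y ^ 2) ^ (2 / p) :=
      mul_le_mul_of_nonneg_left h7 (by positivity)
    linarith [h9.trans (h6 ▸ h5)]

/-- Bonami's two point inequality, `1 ≤ p ≤ 2`. -/
lemma two_point {a b p : ℝ} (ha : 0 ≤ a) (hb : 0 ≤ b) (hp1 : 1 ≤ p) (hp2 : p ≤ 2) :
    (a + b) ^ 2 + (p - 1) * (a - b) ^ 2 ≤ 4 * ((a ^ p + b ^ p) / 2) ^ (2 / p) := by
  rcases le_total b a with h | h
  · exact two_point_aux hb h hp1 hp2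
  · have := two_point_aux ha h hp1 hp2
    rw [add_comm (b ^ p)] at this
    nlinarith

end Pool.H56.Th
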